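import Pool.Agent.Lib.MP_6b2d39_agHy.Defs
import Pool.Agent.Lib.MP_6b2d39_agHl.Mass
import Pool.Agent.Lib.MP_6b2d39_agHl.Step

set_option autoImplicit false

namespace Pool.Agent.Lib.MP_6b2d39_agHy

open Pool.Agent.Lib.MP_6b2d39_agHl Pool.Agent.Lib.MP_6b2d39_ag Pool.Agent.Lib.MP_6b2d39_agCr

variable {n m T d : ℕ} {μ : Fin n → ℕ} {r : ℕ → ℕ}

/-- HY18. `∑ (μ i - b) = S - n b` for `b ≤ m` and `= 0` for `b > m` (`demand_low`, `demand_high`) -/
theorem dem_bounds (hμ : ∀ i, μ i = m ∨ μ i = m + 1) {U W xf : ℝ} (hx : xf ^ 2 ≤ n)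
    (hm : (n - xf ^ 2) * m ≤ 1) (hT : T = m ∨ T = m + 1)
    (hU : ∀ b < T, (r b : ℝ) ≤ U - xf ^ 2 * b) (hW : ∀ b, W - xf ^ 2 * b ≤ (r b : ℝ)) :
    (∀ b < T, ((∑ i, μ i : ℕ) : ℝ) - U - 1 ≤ ((∑ i, (μ i - b) : ℕ) : ℝ) - r b) ∧
    (∀ b < T, ((∑ i, (μ i - b) : ℕ) : ℝ) - r b ≤ ((∑ i, μ i : ℕ) : ℝ) - W) ∧
    ((∑ i, (μ i - T) : ℕ) : ℝ) - r T ≤ max (((∑ i, μ i : ℕ) : ℝ) - W) 0 := by
  have key : ∀ b ≤ m, ((∑ i, (μ i - b) : ℕ) : ℝ) = ((∑ i, μ i : ℕ) : ℝ) - n * b := by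
    intro b hb
    have h1 := demand_low hμ hb
    have h2 : ((∑ i, (μ i - b) : ℕ) : ℝ) + n * b = ((∑ i, μ i : ℕ) : ℝ) := by
      rw [← h1]
      push_cast
      ring
    linarith
  have hn0 : 0 ≤ (n : ℝ) - xf ^ 2 := sub_nonneg.2 hx
  refine ⟨fun b hb => ?_, fun b hb => ?_, ?_⟩
  · have hbm : b ≤ m := by omega
    have hbm' : (b : ℝ) ≤ m := by exact_mod_cast hbm
    have h1 := mul_le_mul_of_nonneg_left hbm' hn0
    have h2 := hU b hb
    rw [key b hbm]
    nlinarith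
  · have hbm : b ≤ m := by omega
    have hb0 : (0 : ℝ) ≤ b := Nat.cast_nonneg b
    have h1 := mul_nonneg hn0 hb0
    have h2 := hW b
    rw [key b hbm]
    nlinarith
  · rcases hT with hT | hT
    · refine le_trans ?_ (le_max_left _ _)
      have hT0 : (0 : ℝ) ≤ T := Nat.cast_nonneg T
      have h1 := mul_nonneg hn0 hT0
      have h2 := hW T
      rw [key T hT.le]
      nlinarith
    · refine le_trans ?_ (le_max_right _ _)
      have hr0 : (0 : ℝ) ≤ r T := Nat.cast_nonneg _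
      rw [demand_high hμ (show m < T by omega), Nat.cast_zero]
      linarith

private theorem dem_tri (d : ℕ) : ∑ b ∈ Finset.range (d + 1), tri (d + 1) b = (d + 2).choose 2 := by
  unfold tri
  induction d with
  | zero => rfl
  | succ d ih =>
    rw [Finset.sum_range_succ']
    have h1 : ∑ b ∈ Finset.range (d + 1), (d + 1 + 1 - (b + 1)) =
        ∑ b ∈ Finset.range (d + 1), (d + 1 - b) :=
      Finset.sum_congr rfl fun b _ => by omega
    have h2 : (d + 1 + 2).choose 2 = (d + 2) + (d + 2).choose 2 := by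
      have h3 := Nat.choose_succ_succ' (d + 2) 1
      rw [Nat.choose_one_right] at h3
      exact h3
    rw [h1, ih, h2, Nat.sub_zero, Nat.add_comm]

/-- HY19. (`Red.sum`, `demand_sum`, `demand_high`) -/
theorem vd_rows (hμ : ∀ i, μ i = m ∨ μ i = m + 1) (hT : T = m ∨ T = m + 1) (hmd : m + 1 ≤ d)
    (hr : Red (d + 1) (tri (d + 1)) r) (h0 : ∀ b, T < b → r b = 0) :
    ((vd d μ : ℤ) : ℝ) = ∑ b ∈ Finset.range (T + 1), (r b : ℝ) -
      ∑ b ∈ Finset.range (T + 1), ((∑ i, (μ i - b) : ℕ) : ℝ) := by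
  have hsub : Finset.range (T + 1) ⊆ Finset.range (d + 1) :=
    Finset.range_subset_range.2 (by omega)
  have h1 : ∑ b ∈ Finset.range (T + 1), r b = ∑ b ∈ Finset.range (d + 1), r b :=
    Finset.sum_subset hsub fun b _ hb => h0 b (by
      rw [Finset.mem_range] at hb
      omega)
  have h2 : ∑ b ∈ Finset.range (T + 1), ∑ i, (μ i - b) =
      ∑ b ∈ Finset.range (d + 1), ∑ i, (μ i - b) :=
    Finset.sum_subset hsub fun b _ hb => demand_high hμ (by
      rw [Finset.mem_range] at hb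
      omega)
  rw [← Nat.cast_sum, ← Nat.cast_sum, h1, h2, demand_sum (N := d + 1) hμ (by omega), hr.sum,
    dem_tri, vd]
  push_cast
  ring

/-- HY20. `S / n = m + f`, `f = #{μ i = m + 1} / n`; `T = m` needs `f ≤ 2 / 3`, `T = m + 1` needs
`f > 1 / 3` -/
theorem card_top (hn : 1 ≤ n) (hμ : ∀ i, μ i = m ∨ μ i = m + 1)
    (h1 : (T : ℝ) < ((∑ i, μ i : ℕ) : ℝ) / n + 2 / 3)
    (h2 : ((∑ i, μ i : ℕ) : ℝ) / n - 2 / 3 ≤ T) :
    (T = m ∨ T = m + 1) ∧ n ≤ 4 * (Finset.univ.filter fun i => μ i = T).card := by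
  classical
  have hn0 : (0 : ℝ) < n := by exact_mod_cast hn
  have hcard : (Finset.univ.filter fun i => μ i = m).card +
      (Finset.univ.filter fun i => μ i = m + 1).card = n := by
    have h3 := Finset.card_filter_add_card_filter_not (s := (Finset.univ : Finset (Fin n)))
      (fun i => μ i = m)
    rw [Finset.card_univ, Fintype.card_fin] at h3
    have h4 : (Finset.univ.filter fun i => ¬ μ i = m) =
        (Finset.univ.filter fun i => μ i = m + 1) := by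
      refine Finset.filter_congr fun i _ => ?_
      rcases hμ i with h | h <;> omega
    rw [h4] at h3
    exact h3
  have hS : ∑ i, μ i = n * m + (Finset.univ.filter fun i => μ i = m + 1).card := by
    have h3 : n * m = ∑ _i : Fin n, m := by simp
    rw [h3, Finset.card_filter, ← Finset.sum_add_distrib]
    refine Finset.sum_congr rfl fun i _ => ?_
    rcases hμ i with h | h
    · rw [if_neg (by omega)]
      omega
    · rw [if_pos h]
      omega
  obtain ⟨k, hk⟩ : ∃ k, k = (Finset.univ.filter fun i => μ i = m + 1).card := ⟨_, rfl⟩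
  obtain ⟨j, hj⟩ : ∃ j, j = (Finset.univ.filter fun i => μ i = m).card := ⟨_, rfl⟩
  rw [← hk] at hS hcard
  rw [← hj] at hcard
  have hjk : (j : ℝ) + k = n := by exact_mod_cast hcard
  have hj0 : (0 : ℝ) ≤ j := Nat.cast_nonneg j
  have hk0 : (0 : ℝ) ≤ k := Nat.cast_nonneg k
  have hdiv : ((∑ i, μ i : ℕ) : ℝ) / n = m + k / n := by
    rw [hS]
    push_cast
    field_simp
  rw [hdiv] at h1 h2
  have hf0 : (0 : ℝ) ≤ k / n := by positivity
  have hf1 : (k : ℝ) / n ≤ 1 := by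
    rw [div_le_one hn0]
    linarith
  have hTm : m ≤ T := by
    have h3 : (m : ℝ) < T + 1 := by linarith
    have h4 : m < T + 1 := by exact_mod_cast h3
    omega
  have hTm' : T ≤ m + 1 := by
    have h3 : (T : ℝ) < m + 2 := by linarith
    have h4 : T < m + 2 := by exact_mod_cast h3
    omega
  rcases (show T = m ∨ T = m + 1 by omega) with hT | hT
  · refine ⟨Or.inl hT, ?_⟩
    rw [hT, ← hj]
    rw [hT] at h2
    have h3 : (k : ℝ) / n ≤ 2 / 3 := by linarith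
    rw [div_le_iff₀ hn0] at h3
    have h4 : (n : ℝ) ≤ 4 * j := by linarith
    exact_mod_cast h4
  · refine ⟨Or.inr hT, ?_⟩
    rw [hT, ← hk]
    rw [hT] at h1
    push_cast at h1
    have h3 : (1 : ℝ) / 3 < k / n := by linarith
    rw [lt_div_iff₀ hn0] at h3
    have h4 : (n : ℝ) ≤ 4 * k := by linarith
    exact_mod_cast h4

/-- HY21. (`mass_bounds`, `mass_real`) -/
theorem ms_of (hn : 1 ≤ n) (hμ : ∀ i, μ i = m ∨ μ i = m + 1) :
    Ms (√n) m ((∑ i, μ i : ℕ) : ℝ) ((∑ i, (μ i + 1).choose 2 : ℕ) : ℝ) := by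
  obtain ⟨a1, a2⟩ := mass_bounds hμ
  obtain ⟨t1, t2⟩ := mass_real hn hμ
  have hs : (√(n : ℝ)) ^ 2 = n := Real.sq_sqrt (Nat.cast_nonneg n)
  have a1' : (n : ℝ) * m ≤ ((∑ i, μ i : ℕ) : ℝ) := by exact_mod_cast a1
  have a2' : ((∑ i, μ i : ℕ) : ℝ) ≤ (n : ℝ) * (m + 1) := by exact_mod_cast a2
  constructor
  · rw [hs]
    exact a1'
  · rw [hs]
    exact a2'
  · rw [hs]
    exact t1
  · rw [hs]
    exact t2

end Pool.Agent.Lib.MP_6b2d39_agHy
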