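import Pool.Agent.Lib.MP_6b2d39_agHl.Last

set_option autoImplicit false

namespace Pool.Agent.Lib.MP_6b2d39_agHy

open Pool.Agent.Lib.MP_6b2d39_agArr Pool.Agent.Lib.MP_6b2d39_agNw
  Pool.Agent.Lib.MP_6b2d39_agHl Pool.Agent.Lib.MP_6b2d39_agWin Pool.Agent.Lib.MP_6b2d39_ag
  Pool.Agent.Lib.MP_6b2d39_ag.Rel

/-- HY6. as `emp_last` (`Hl/Last.lean`) -/
theorem emp_of_cert {n L : ℕ} {μ : Fin n → ℕ} {r : ℕ → ℕ}
    (h : Cert μ Finset.univ L (fun b => (r b : ℤ))) : EmpQ (dgm r L) μ Finset.univ := by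
  have h0 : EmpP (dgm r L) μ Finset.univ := by
    refine empP_of_cert_up (c := 0) h (fun b _ => ?_) (fun p hp => ?_)
    · rw [zero_add]
      have hsub : rowOf (dgm r L) b ⊆ Finset.range (r b) := by
        intro a ha
        unfold rowOf at ha
        rw [Finset.mem_image] at ha
        obtain ⟨p, hp, rfl⟩ := ha
        rw [Finset.mem_filter, mem_dgm] at hp
        rw [Finset.mem_range, ← hp.2]
        exact hp.1.2
      have hc := Finset.card_le_card hsub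
      rw [Finset.card_range] at hc
      exact_mod_cast hc
    · rw [mem_dgm] at hp
      exact ⟨Nat.zero_le _, by rw [zero_add]; exact hp.1⟩
  obtain ⟨x, y, _, _, hxy⟩ := h0
  exact ⟨x, y, hxy⟩

/-- the rows above `T` are empty -/
theorem emp_cut {ι : Type} {T N : ℕ} {r : ℕ → ℕ} (h0 : ∀ b, T < b → r b = 0) {m : ι → ℕ}
    {J : Finset ι} (h : EmpQ (dgm r (T + 1)) m J) : EmpQ (dgm r N) m J := by
  obtain ⟨x, y, hxy⟩ := h
  refine ⟨x, y, fun f hf hc => hxy f ?_ hc⟩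
  have hsub : dgm r N ⊆ dgm r (T + 1) := by
    intro p hp
    rw [mem_dgm] at hp ⊢
    refine ⟨?_, hp.2⟩
    by_contra hcon
    have h1 := h0 p.2 (by omega)
    have h2 := hp.2
    omega
  intro a b hab
  exact hf a b fun hc' => hab (hsub hc')

/-- more points -/
theorem emp_inl {n u : ℕ} {P : Finset (ℕ × ℕ)} {μ : Fin n → ℕ} (h : EmpQ P μ Finset.univ) :
    EmpQ P (Sum.elim μ (fun _ => 1) : Fin n ⊕ Fin u → ℕ) Finset.univ := by
  obtain ⟨x, y, hxy⟩ := h
  refine ⟨Sum.elim x (fun _ => 0), Sum.elim y (fun _ => 0), fun f hf hc => hxy f hf fun i _ => ?_⟩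
  exact hc (Sum.inl i) (Finset.mem_univ _)

end Pool.Agent.Lib.MP_6b2d39_agHy
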