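import Pool.Agent.Lib.MP_6b2d39_agHy.Kill

open Polynomial

set_option autoImplicit false

namespace Pool.Agent.Lib.MP_6b2d39_agHy

open Pool.Agent.Lib.MP_6b2d39_ag Pool.Agent.Lib.MP_6b2d39_ag.Rel
  Pool.Agent.Lib.MP_6b2d39_agNw Pool.Agent.Lib.MP_6b2d39_agHl

/-- the polynomials supported on `P` with multiplicity at least `μ i` at `(x i, y i)` -/
private noncomputable def ea_sys {n : ℕ} (P : Finset (ℕ × ℕ)) (μ : Fin n → ℕ) (x y : Fin n → ℂ) :
    Submodule ℂ ℂ[X][X] where
  carrier := {F | SuppP P F ∧ ∀ i, Cond (Finset.Icc 1 (μ i)) (x i) (y i) F}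
  add_mem' := by
    rintro F G ⟨hF, hF'⟩ ⟨hG, hG'⟩
    refine ⟨fun a b h => ?_, fun i a => ?_⟩
    · rw [coeff_add, coeff_add, hF a b h, hG a b h, add_zero]
    · rw [map_add, coeff_add]
      exact dvd_add (hF' i a) (hG' i a)
  zero_mem' := by
    refine ⟨fun a b _ => by simp, fun i a => by simp⟩
  smul_mem' := by
    rintro c F ⟨hF, hF'⟩
    have h0 : c • F = C (C c) * F := by
      rw [← smul_eq_C_mul]
      ext a b
      simp
    refine ⟨fun a b h => ?_, fun i a => ?_⟩
    · rw [h0, coeff_C_mul, coeff_C_mul, hF a b h, mul_zero]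
    · rw [h0, taylor_mul, taylor_C, coeff_C_mul]
      exact (hF' i a).mul_left _

/-- the coefficients at the cells of `Z` -/
private noncomputable def ea_coef (Z : Finset (ℕ × ℕ)) : ℂ[X][X] →ₗ[ℂ] (Z → ℂ) where
  toFun f c := (f.coeff c.1.1).coeff c.1.2
  map_add' f g := by
    funext c
    rw [Pi.add_apply, coeff_add, coeff_add]
  map_smul' c f := by
    funext z
    rw [Pi.smul_apply, coeff_smul, coeff_smul, RingHom.id_apply]

private theorem ea_cond {x y : ℂ} {F : ℂ[X][X]} (h : Cond (Finset.Icc 1 1) x y F) :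
    ((F.eval (C x)).eval y) = 0 := by
  have h1 := h 0
  have h2 : colH (Finset.Icc 1 1) 0 = 1 := by decide
  rw [h2, pow_one, taylor_coeff_zero, dvd_iff_isRoot] at h1
  exact h1

/-- HY5. The polynomials supported on `dgm r L` satisfying the conditions of the main points (at
the points of the hypothesis) form a space of dimension at most `∑ (r b - l b)`: the coefficients
at the cells `(a, b)`, `l b ≤ a < r b`, are injective on it. `exists_kill` for this space
(`Cond (Finset.Icc 1 1)` is vanishing: `z_cond`, private, in `Nw/Zero.lean`). -/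
theorem emp_add {n L u : ℕ} {r l : ℕ → ℕ} {μ : Fin n → ℕ} (hl : ∀ b < L, l b ≤ r b)
    (hu : ∑ b ∈ Finset.range L, (r b - l b) ≤ u) (h : EmpQ (dgm l L) μ Finset.univ) :
    EmpQ (dgm r L) (Sum.elim μ (fun _ => 1) : Fin n ⊕ Fin u → ℕ) Finset.univ := by
  classical
  obtain ⟨x, y, hxy⟩ := h
  have hinj : Function.Injective ((ea_coef (dgm r L \ dgm l L)).domRestrict
      (ea_sys (dgm r L) μ x y)) := by
    refine (injective_iff_map_eq_zero _).2 fun f hf => ?_
    apply Subtype.ext
    refine hxy f.1 (fun a b hab => ?_) (fun i _ => f.2.2 i)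
    by_cases h1 : (a, b) ∈ dgm r L
    · exact congrFun hf ⟨(a, b), Finset.mem_sdiff.2 ⟨h1, hab⟩⟩
    · exact f.2.1 a b h1
  have hfd : FiniteDimensional ℂ (ea_sys (dgm r L) μ x y) :=
    FiniteDimensional.of_injective _ hinj
  have hcard : (dgm r L \ dgm l L).card ≤ u := by
    have hsub : dgm l L ⊆ dgm r L := by
      intro p hp
      rw [mem_dgm] at hp ⊢
      exact ⟨hp.1, hp.2.trans_le (hl _ hp.1)⟩
    have h1 := Finset.card_sdiff_add_card_eq_card hsub
    rw [card_dgm, card_dgm] at h1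
    have h2 : ∑ b ∈ Finset.range L, (r b - l b) + ∑ b ∈ Finset.range L, l b
        = ∑ b ∈ Finset.range L, r b := by
      rw [← Finset.sum_add_distrib]
      refine Finset.sum_congr rfl fun b hb => ?_
      have := hl b (Finset.mem_range.1 hb)
      omega
    omega
  have hrk : Module.finrank ℂ (ea_sys (dgm r L) μ x y) ≤ u := by
    have h1 := LinearMap.finrank_le_finrank_of_injective hinj
    rw [Module.finrank_fintype_fun_eq_card, Fintype.card_coe] at h1
    exact h1.trans hcard
  obtain ⟨x', y', hk⟩ := exists_kill u (ea_sys (dgm r L) μ x y) hrk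
  refine ⟨Sum.elim x x', Sum.elim y y', fun f hf hc => ?_⟩
  refine hk f ⟨hf, fun i => ?_⟩ fun i => ?_
  · have h1 := hc (Sum.inl i) (Finset.mem_univ _)
    rw [Sum.elim_inl, Sum.elim_inl, Sum.elim_inl] at h1
    exact h1
  · have h1 := hc (Sum.inr i) (Finset.mem_univ _)
    rw [Sum.elim_inr, Sum.elim_inr, Sum.elim_inr] at h1
    exact ea_cond h1

end Pool.Agent.Lib.MP_6b2d39_agHy
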