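import Pool.Agent.Lib.MP_6b2d39_agHy.CertT
import Pool.Agent.Lib.MP_6b2d39_agHy.EmpCut
import Pool.Agent.Lib.MP_6b2d39_agHy.EmpAdd

set_option autoImplicit false

namespace Pool.Agent.Lib.MP_6b2d39_agHy

open Pool.Agent.Lib.MP_6b2d39_agNw Pool.Agent.Lib.MP_6b2d39_agHl

/-- HY8. THE LAST STEP, nonempty side. `k = max (0, c b - r b)`, `b < T` (a natural number:
`(Finset.range T).sup fun b => c b - r b`), `4 k ≤ n`, so there is a set `J` of `k` points of
multiplicity `T`; `l b = c b - k` for `b < T` (`k ≤ c b`: `μ i - b ≥ 1` for `i ∈ J`),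
`l T = c T + k T`. Then `l b ≤ r b` for `b < T` and
`r T - c T = v + ∑_{b < T} (c b - r b) ≥ v + T (k - σ) ≥ k T` (`G ≥ k - σ`: if `k = 0` this is
`hG`, otherwise `k ≤ G + σ`), so `l T ≤ r T`, and `∑_{b ≤ T} (r b - l b) = v ≤ u`. `cert_top` for
`l`, `emp_of_cert`, `emp_add` (`L = T + 1`), `emp_cut`. -/
theorem end_pos {n N T u : ℕ} {μ : Fin n → ℕ} {r : ℕ → ℕ} {v G σ : ℝ}
    (h0 : ∀ b, T < b → r b = 0)
    (hv : v = ∑ b ∈ Finset.range (T + 1), (r b : ℝ) -
      ∑ b ∈ Finset.range (T + 1), ((∑ i, (μ i - b) : ℕ) : ℝ))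
    (hn : n ≤ 4 * (Finset.univ.filter fun i => μ i = T).card)
    (h1 : ∀ b < T, G ≤ ((∑ i, (μ i - b) : ℕ) : ℝ) - r b)
    (h2 : ∀ b < T, ((∑ i, (μ i - b) : ℕ) : ℝ) - r b ≤ G + σ)
    (hG : -σ ≤ G) (hvσ : T * σ ≤ v) (h4 : 4 * (G + σ) ≤ n) (hu : v ≤ u) :
    EmpQ (dgm r N) (Sum.elim μ (fun _ => 1) : Fin n ⊕ Fin u → ℕ) Finset.univ := by
  classical
  obtain ⟨c, hc⟩ : ∃ c : ℕ → ℕ, c = fun b => ∑ i, (μ i - b) := ⟨_, rfl⟩
  have hcb : ∀ b, ∑ i, (μ i - b) = c b := fun b => by rw [hc]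
  simp only [hcb] at hv h1 h2
  obtain ⟨k, hk⟩ : ∃ k, k = (Finset.range T).sup fun b => c b - r b := ⟨_, rfl⟩
  have hkle : ∀ b < T, c b ≤ r b + k := by
    intro b hb
    have h5 : c b - r b ≤ k := by
      rw [hk]
      exact Finset.le_sup (f := fun b => c b - r b) (Finset.mem_range.2 hb)
    omega
  have hkG : (k : ℝ) ≤ G + σ := by
    rcases Nat.eq_zero_or_pos T with hT | hT
    · rw [hk, hT, Finset.range_zero, Finset.sup_empty]
      have : ((⊥ : ℕ) : ℝ) = 0 := Nat.cast_zero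
      rw [this]
      linarith
    · obtain ⟨b, hb, hbk⟩ := Finset.exists_mem_eq_sup (Finset.range T)
        (Finset.nonempty_range_iff.2 hT.ne') fun b => c b - r b
      rw [hk, hbk]
      have h5 := h2 b (Finset.mem_range.1 hb)
      rcases le_total (c b) (r b) with h6 | h6
      · rw [Nat.sub_eq_zero_of_le h6, Nat.cast_zero]
        linarith
      · rw [Nat.cast_sub h6]
        exact h5
  have hkn : 4 * k ≤ n := by
    have h5 : ((4 * k : ℕ) : ℝ) ≤ (n : ℝ) := by
      push_cast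
      linarith
    exact_mod_cast h5
  obtain ⟨J, hJs, hJk⟩ := Finset.exists_subset_card_eq
    (show k ≤ (Finset.univ.filter fun i => μ i = T).card by omega)
  have hJ : ∀ i ∈ J, μ i = T := fun i hi => (Finset.mem_filter.1 (hJs hi)).2
  have hkc : ∀ b < T, k ≤ c b := by
    intro b hb
    rw [← hcb, ← hJk, Finset.card_eq_sum_ones]
    refine (Finset.sum_le_sum fun i hi => ?_).trans
      (Finset.sum_le_sum_of_subset (Finset.subset_univ J))
    rw [hJ i hi]
    omega
  obtain ⟨l, hl⟩ : ∃ l : ℕ → ℕ, l = fun b => if b < T then c b - k else c T + k * T := ⟨_, rfl⟩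
  have hl1 : ∀ b < T, l b = c b - k := fun b hb => by rw [hl]; exact if_pos hb
  have hl2 : l T = c T + k * T := by rw [hl]; exact if_neg (lt_irrefl T)
  have hcert := cert_top (n := n) (T := T) (μ := μ) (J := J) hJ (r := l)
    (fun b hb => by
      have h5 := hkc b hb
      rw [hl1 b hb, hJk, hcb]
      omega)
    (by rw [hl2, hJk, hcb])
  have hsumG : (T : ℝ) * G ≤ ∑ b ∈ Finset.range T, ((c b : ℝ) - r b) := by
    have h5 := Finset.card_nsmul_le_sum (Finset.range T) (fun b => ((c b : ℝ) - r b)) G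
      fun b hb => h1 b (Finset.mem_range.1 hb)
    rwa [Finset.card_range, nsmul_eq_mul] at h5
  have hv' : (r T : ℝ) - c T = v + ∑ b ∈ Finset.range T, ((c b : ℝ) - r b) := by
    rw [hv, Finset.sum_range_succ, Finset.sum_range_succ, Finset.sum_sub_distrib]
    ring
  have hlT : l T ≤ r T := by
    rw [hl2]
    have h5 : (T : ℝ) * k ≤ T * (G + σ) := mul_le_mul_of_nonneg_left hkG (Nat.cast_nonneg T)
    have h6 : ((c T + k * T : ℕ) : ℝ) ≤ (r T : ℝ) := by
      push_cast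
      linarith
    exact_mod_cast h6
  have hlr : ∀ b < T + 1, l b ≤ r b := by
    intro b hb
    rcases Nat.lt_succ_iff_lt_or_eq.1 hb with h5 | h5
    · have h6 := hkle b h5
      rw [hl1 b h5]
      omega
    · rw [h5]
      exact hlT
  have hsum : ∑ b ∈ Finset.range (T + 1), (r b - l b) ≤ u := by
    have h5 : ((∑ b ∈ Finset.range (T + 1), (r b - l b) : ℕ) : ℝ) =
        ∑ b ∈ Finset.range (T + 1), ((r b : ℝ) - l b) := by
      rw [Nat.cast_sum]
      exact Finset.sum_congr rfl fun b hb => Nat.cast_sub (hlr b (Finset.mem_range.1 hb))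
    have h6 : ∑ b ∈ Finset.range T, (l b : ℝ) = ∑ b ∈ Finset.range T, ((c b : ℝ) - k) :=
      Finset.sum_congr rfl fun b hb => by
        rw [hl1 b (Finset.mem_range.1 hb), Nat.cast_sub (hkc b (Finset.mem_range.1 hb))]
    have h7 : ((∑ b ∈ Finset.range (T + 1), (r b - l b) : ℕ) : ℝ) ≤ (u : ℝ) := by
      rw [h5, Finset.sum_sub_distrib, Finset.sum_range_succ (fun b => (l b : ℝ)), h6,
        Finset.sum_sub_distrib, Finset.sum_const, Finset.card_range, nsmul_eq_mul, hl2]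
      rw [Finset.sum_range_succ (fun b => (c b : ℝ))] at hv
      push_cast
      linarith
    exact_mod_cast h7
  exact emp_cut h0 (emp_add hlr hsum (emp_of_cert hcert))

end Pool.Agent.Lib.MP_6b2d39_agHy
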