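import Pool.Agent.Lib.MP_6b2d39_agHy.Defs
import Pool.Agent.Lib.MP_6b2d39_agHl.Mass

set_option autoImplicit false

namespace Pool.Agent.Lib.MP_6b2d39_agHy

open Pool.Agent.Lib.MP_6b2d39_agHl Pool.Agent.Lib.MP_6b2d39_ag Pool.Agent.Lib.MP_6b2d39_agCr

/-- HY23. (`vd d' μ > 0` for large `d'`; otherwise the property is inherited by all `d' ≥ d`) -/
theorem max_deg {n d : ℕ} (μ : Fin n → ℕ) {ε : ℝ} (hε : 0 ≤ ε)
    (h : ((vd d μ : ℤ) : ℝ) ≤ -(ε * d)) :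
    ∃ d', d ≤ d' ∧ ((vd d' μ : ℤ) : ℝ) ≤ -(ε * d') ∧
      -(ε * ((d' : ℝ) + 1)) < ((vd (d' + 1) μ : ℤ) : ℝ) := by
  by_contra hcon
  push Not at hcon
  have key : ∀ k : ℕ, ((vd (d + k) μ : ℤ) : ℝ) ≤ -(ε * ((d + k : ℕ) : ℝ)) := by
    intro k
    induction k with
    | zero => exact h
    | succ k ih =>
      have h1 := hcon (d + k) (by omega) ih
      rw [← add_assoc]
      push_cast at h1 ⊢
      exact h1
  obtain ⟨M, hM⟩ : ∃ M : ℕ, M = ∑ i, (μ i + 1).choose 2 := ⟨_, rfl⟩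
  have h1 := key M
  rw [vd_real, ← hM] at h1
  have h2 : 0 ≤ ε * ((d + M : ℕ) : ℝ) := by positivity
  have h3 : (0 : ℝ) ≤ M := Nat.cast_nonneg M
  have h4 : (0 : ℝ) ≤ d := Nat.cast_nonneg d
  push_cast at h1 h2
  nlinarith

end Pool.Agent.Lib.MP_6b2d39_agHy
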