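import Pool.Agent.Lib.MP_6b2d39_agHx.Defs

/-!
Almost homogeneous systems, all the degrees but one (THEOREM HY): definitions.

Notation: `n` points of multiplicity `m` or `m + 1`, `R = √n`, `S = ∑ μ i`, `D = d + 3 / 2`,
`Y = S / R + R / 2`. Steps: `q` (from the triangle), `q ^ 2 + 1`, a chain `Tch` from
`y = q + 1 / q` to `xe`, the last step `s = xe * xf`.
-/

set_option autoImplicit false

namespace Pool.Agent.Lib.MP_6b2d39_agHy

/-- the order of the special points: `p = 1` orders the rows `T, 0, 1, …, T - 1`, `p = T + 2` gives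
the standard order `0, 1, …, T` -/
def sp (T b : ℕ) : ℤ := if b = T then -((T : ℤ) + 1) else 0

/-- upper degree after the steps `q`, `q ^ 2 + 1` -/
noncomputable def up (N q : ℕ) : ℝ := N - ((q : ℝ) - 1) / 2 + 1 / (8 * q)

/-- lower degree after the steps `q`, `q ^ 2 + 1` -/
noncomputable def lo (N q : ℕ) : ℝ := N - ((q : ℝ) - 1) / 2 - 9 / (8 * q)

/-- the last rows are at most `UU - xf ^ 2 b` -/
noncomputable def UU (D q xe xf : ℝ) : ℝ :=
  xf * (D - xf / 2 + (xe - q) / 2 + (xe - (q + 1 / q)) + 1 / (8 * q)) + xe ^ 2 / 8 + q ^ 2 / 2 + 1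

/-- the last rows are at least `WW - xf ^ 2 b` -/
noncomputable def WW (D q xe xf : ℝ) : ℝ :=
  xf * (D - xf / 2 + (xe - q) / 2 - (xe - (q + 1 / q)) - 9 / (8 * q)) - xe ^ 2 / 8

/-- the top row `T` of the last rows: `xf T < TT ≤ xf (T + 1)` -/
noncomputable def TT (D q xe : ℝ) : ℝ :=
  D - q / 2 + 1 / (8 * q) + (xe - (q + 1 / q)) + q ^ 2 / (2 * xe)

/-- the sizes (`R = √n`) -/
structure Fc (R ε m q xe xf : ℝ) : Prop where
  e0 : 0 < ε
  e1 : ε ≤ 1 / 2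
  r0 : 1000000 ≤ R
  m0 : 0 ≤ m
  q1 : 1 ≤ q
  q2 : q ^ 2 ≤ ε / 1000 * R
  q3 : 1 ≤ ε / 1000 * q
  xe0 : q + 1 / q ≤ xe
  xe1 : xe ≤ q + ε / 1000
  xf0 : 0 < xf
  xf1 : xf ≤ R
  xf2 : (R - xf) * (m + 2) ≤ 1 / (2 * R)

/-- the mass of the points: `M` conditions, `S` the sum of the multiplicities -/
structure Ms (R m S M : ℝ) : Prop where
  s0 : R ^ 2 * m ≤ S
  s1 : S ≤ R ^ 2 * (m + 1)
  m0 : M ≤ (S + R ^ 2 / 2) ^ 2 / (2 * R ^ 2)
  m1 : (S + R ^ 2 / 2) ^ 2 / (2 * R ^ 2) - R ^ 2 / 8 ≤ M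

end Pool.Agent.Lib.MP_6b2d39_agHy
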