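import Pool.Agent.Lib.MP_6b2d39_agHy.Defs

set_option autoImplicit false

namespace Pool.Agent.Lib.MP_6b2d39_agHy

variable {R ε m q xe xf S D : ℝ}

/-- HY13. the errors: `UU - WW = xf (2 (xe - y) + 10 / (8 q)) + xe ^ 2 / 4 + q ^ 2 / 2 + 1`;
`1 / q ≤ ε / 1000`, `xe ≤ 2 q`, `q ^ 2 ≤ ε R / 1000` -/
theorem width (h : Fc R ε m q xe xf) (D : ℝ) :
    0 ≤ UU D q xe xf - WW D q xe xf + 1 ∧ UU D q xe xf - WW D q xe xf + 1 ≤ ε / 50 * R := by
  obtain ⟨e0, e1, r0, m0, q1, q2, q3, xe0, xe1, xf0, xf1, xf2⟩ := h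
  have hq : (0 : ℝ) < q := by linarith
  obtain ⟨u, hu⟩ : ∃ u : ℝ, u = 1 / q := ⟨_, rfl⟩
  have hu0 : 0 < u := by
    rw [hu]
    positivity
  have e : UU D q xe xf - WW D q xe xf + 1 =
      xf * (2 * (xe - (q + u)) + 10 / 8 * u) + xe ^ 2 / 4 + q ^ 2 / 2 + 2 := by
    unfold UU WW
    rw [hu]
    field_simp
    ring
  rw [← hu] at xe0
  have hx0 : 0 ≤ xe - (q + u) := by linarith
  rw [e]
  constructor
  · have h1 : 0 ≤ xf * (2 * (xe - (q + u)) + 10 / 8 * u) := by positivity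
    positivity
  · have h1 : xf * (2 * (xe - (q + u)) + 10 / 8 * u) ≤ R * (2 * ε / 1000) := by
      refine mul_le_mul xf1 ?_ (by positivity) (by linarith)
      linarith
    have hxe : xe ≤ 2 * q := by linarith
    have h2 : xe ^ 2 ≤ 4 * q ^ 2 := by
      have h3 : xe ^ 2 ≤ (2 * q) ^ 2 := pow_le_pow_left₀ (by linarith) hxe 2
      linarith
    have h4 : (2 : ℝ) ≤ q ^ 2 := by
      have h5 : 2000 ≤ q := by
        by_contra h6
        push Not at h6
        have h7 : ε / 1000 * q < 1 := by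
          calc ε / 1000 * q ≤ (1 / 2) / 1000 * q := by
                refine mul_le_mul_of_nonneg_right ?_ hq.le
                linarith
            _ < (1 / 2) / 1000 * 2000 := by
                refine mul_lt_mul_of_pos_left h6 (by norm_num)
            _ = 1 := by norm_num
        linarith
      nlinarith
    nlinarith

/-- `D` near to `Y = S / R + R / 2`: `D - q / 2 ≤ TT ≤ D + 1 / 4` (`q ^ 2 / (2 xe) ≤ q / 2`).
First: `T ≤ 2 (m + 2)` if `T ≥ 0`, so `(R - xf) T ≤ 1 / R`, `R T ≤ D + 1 / 4 + 1 / R`,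
`D ≤ S / R + 5 / 8 R`. Second: `T + 1 ≥ 0`, `D - q / 2 ≤ R (T + 1)`. -/
theorem top_real (h : Fc R ε m q xe xf) (h0 : 0 ≤ S) (hS : S ≤ R ^ 2 * (m + 1))
    (hD : |D - (S / R + R / 2)| ≤ R / 8) {T : ℝ} (h1 : xf * T < TT D q xe)
    (h2 : TT D q xe ≤ xf * (T + 1)) : T < S / R ^ 2 + 2 / 3 ∧ S / R ^ 2 - 2 / 3 ≤ T := by
  obtain ⟨e0, e1, r0, m0, q1, q2, q3, xe0, xe1, xf0, xf1, xf2⟩ := h
  have hq : (0 : ℝ) < q := by linarith
  have hR : (0 : ℝ) < R := by linarith
  have hu0 : 0 < 1 / q := by positivity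
  have hu1 : 1 / q ≤ 1 := by
    rw [div_le_one hq]
    exact q1
  have hxe : 0 < xe := by linarith
  have hv0 : 0 ≤ q ^ 2 / (2 * xe) := by positivity
  have hv1 : q ^ 2 / (2 * xe) ≤ q / 2 := by
    rw [div_le_div_iff₀ (by positivity) two_pos]
    nlinarith
  have hw : 1 / (8 * q) = 1 / 8 * (1 / q) := by
    field_simp
  have hT1 : TT D q xe ≤ D + 1 / 4 := by
    unfold TT
    rw [hw]
    linarith
  have hT2 : D - q / 2 ≤ TT D q xe := by
    unfold TT
    rw [hw]
    linarith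
  obtain ⟨hD1, hD2⟩ := abs_le.1 hD
  have hSR : S / R ≤ R * (m + 1) := by
    rw [div_le_iff₀ hR]
    linarith
  have hSR0 : 0 ≤ S / R := by positivity
  have hSR2 : S / R ^ 2 * R = S / R := by
    field_simp
  have hSR3 : 0 ≤ S / R ^ 2 := by positivity
  have hRi : 1 / R * R = 1 := by
    field_simp
  have hRi0 : 0 < 1 / R := by positivity
  have hRi1 : 1 / R ≤ 1 := by
    rw [div_le_one hR]
    linarith
  have hRR : 1 / (2 * R) = 1 / 2 * (1 / R) := by
    field_simp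
  rw [hRR] at xf2
  constructor
  · rcases lt_or_ge T 0 with hT | hT
    · linarith
    · have hxf : R / 2 ≤ xf := by
        have h3 : (R - xf) * 2 ≤ (R - xf) * (m + 2) :=
          mul_le_mul_of_nonneg_left (by linarith) (by linarith)
        linarith
      have h3 : T ≤ 2 * (m + 2) := by
        by_contra h4
        push Not at h4
        have h5 : R / 2 * (2 * (m + 2)) ≤ xf * T :=
          mul_le_mul hxf h4.le (by linarith) xf0.le
        nlinarith
      have h4 : (R - xf) * T ≤ 1 / R := by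
        have h5 : (R - xf) * T ≤ (R - xf) * (2 * (m + 2)) :=
          mul_le_mul_of_nonneg_left h3 (by linarith)
        linarith
      have h5 : T * R < (S / R ^ 2 + 2 / 3) * R := by
        nlinarith
      exact lt_of_mul_lt_mul_right h5 hR.le
  · have hqR : q / 2 ≤ R / 24 := by
      have h3 : q ≤ q ^ 2 := by nlinarith
      have h4 : ε / 1000 * R ≤ (1 / 2) / 1000 * R :=
        mul_le_mul_of_nonneg_right (by linarith) hR.le
      linarith
    have h3 : 0 ≤ T + 1 := by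
      by_contra h4
      push Not at h4
      have h5 : xf * (T + 1) < 0 := mul_neg_of_pos_of_neg xf0 h4
      linarith
    have h4 : xf * (T + 1) ≤ R * (T + 1) := mul_le_mul_of_nonneg_right xf1 h3
    have h5 : (S / R ^ 2 - 2 / 3) * R ≤ T * R := by
      nlinarith
    exact le_of_mul_le_mul_right h5 hR

/-- `|D - Y| ≤ R / 8` -/
theorem size {d : ℝ} (hR : 1000000 ≤ R) (hm : 0 ≤ m) (s0 : R ^ 2 * m ≤ S)
    (s1 : S ≤ R ^ 2 * (m + 1)) (hD : |d + 3 / 2 - (S / R + R / 2)| ≤ R / 8) :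
    R * m + R / 4 ≤ d ∧ d ≤ R * (m + 2) := by
  have hR0 : (0 : ℝ) < R := by linarith
  obtain ⟨hD1, hD2⟩ := abs_le.1 hD
  have h1 : S / R ≤ R * (m + 1) := by
    rw [div_le_iff₀ hR0]
    linarith
  have h2 : R * m ≤ S / R := by
    rw [le_div_iff₀ hR0]
    linarith
  constructor
  · linarith
  · linarith

end Pool.Agent.Lib.MP_6b2d39_agHy
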