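import Pool.Agent.Lib.MP_6b2d39_agHy.Defs

set_option autoImplicit false

namespace Pool.Agent.Lib.MP_6b2d39_agHy

variable {R m S M d : ℝ}

private theorem numc_aux (hR : 1000000 ≤ R) (hm : 100 ≤ m) (h : Ms R m S M) :
    100 * R ≤ S / R + R / 2 ∧ 2 * M ≤ (S / R + R / 2) ^ 2 ∧
      (S / R + R / 2) ^ 2 - R ^ 2 / 4 ≤ 2 * M := by
  have hR0 : 0 < R := by linarith
  have e : (S + R ^ 2 / 2) ^ 2 / (2 * R ^ 2) = (S / R + R / 2) ^ 2 / 2 := by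
    field_simp
  have h0 := h.m0
  have h1 := h.m1
  rw [e] at h0 h1
  refine ⟨?_, by linarith, by linarith⟩
  have h2 : 100 * R ≤ S / R := by
    rw [le_div_iff₀ hR0]
    nlinarith [h.s0, mul_le_mul_of_nonneg_left hm (sq_nonneg R)]
  linarith

/-- HY16. `v = (D ^ 2 - 1 / 4) / 2 - M`, `Y ^ 2 / 2 - R ^ 2 / 8 ≤ M ≤ Y ^ 2 / 2`, `Y = S / R + R / 2`;
`v ≥ 0` gives `D ^ 2 ≥ Y ^ 2 - R ^ 2 / 4`, so `D ≥ Y - R / 8` as `Y R ≥ 100 R ^ 2` -/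
theorem d_lower (hR : 1000000 ≤ R) (hm : 100 ≤ m) (h : Ms R m S M) (hd : 0 ≤ d)
    (hv : 0 ≤ (d + 1) * (d + 2) / 2 - M) : S / R + R / 2 - R / 8 ≤ d + 3 / 2 := by
  obtain ⟨h1, _, h3⟩ := numc_aux hR hm h
  generalize S / R + R / 2 = Y at *
  by_contra hc
  push Not at hc
  have h4 : (d + 3 / 2) ^ 2 < (Y - R / 8) ^ 2 := pow_lt_pow_left₀ hc (by linarith) two_ne_zero
  have h5 : 100 * R * R ≤ Y * R := mul_le_mul_of_nonneg_right h1 (by linarith)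
  nlinarith [sq_nonneg R]

/-- HY17. `v(d) ≤ 0` gives `D ^ 2 ≤ Y ^ 2 + 1 / 4`; `v(d + 1) ≥ -(d + 1)` gives
`(D + 2) ^ 2 ≥ Y ^ 2 - R ^ 2 / 4` -/
theorem d_near (hR : 1000000 ≤ R) (hm : 100 ≤ m) (h : Ms R m S M) (hd : 0 ≤ d)
    (hv : (d + 1) * (d + 2) / 2 - M ≤ 0) (hv' : -(d + 1) ≤ (d + 2) * (d + 3) / 2 - M) :
    |d + 3 / 2 - (S / R + R / 2)| ≤ R / 8 := by
  obtain ⟨h1, h2, h3⟩ := numc_aux hR hm h
  generalize S / R + R / 2 = Y at *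
  have h5 : 100 * R * R ≤ Y * R := mul_le_mul_of_nonneg_right h1 (by linarith)
  have hRR : 1000000 * R ≤ R * R := mul_le_mul_of_nonneg_right hR (by linarith)
  rw [abs_le]
  constructor
  · by_contra hc
    push Not at hc
    have h4 : (d + 3 / 2 + 2) ^ 2 < (Y - R / 16) ^ 2 :=
      pow_lt_pow_left₀ (by linarith) (by linarith) two_ne_zero
    nlinarith
  · by_contra hc
    push Not at hc
    have h4 : (Y + R / 8) ^ 2 < (d + 3 / 2) ^ 2 :=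
      pow_lt_pow_left₀ (by linarith) (by linarith) two_ne_zero
    nlinarith

end Pool.Agent.Lib.MP_6b2d39_agHy
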