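import Pool.Agent.Lib.MP_6b2d39_agHy.Defs
import Pool.Agent.Lib.MP_6b2d39_agArr.Defs

set_option autoImplicit false

namespace Pool.Agent.Lib.MP_6b2d39_agHy

open Pool.Agent.Lib.MP_6b2d39_agArr

private theorem sp_top (T : ℕ) : sp T T = -((T : ℤ) + 1) := if_pos rfl

private theorem sp_ne {T b : ℕ} (hb : b ≠ T) : sp T b = 0 := if_neg hb

/-- HY2. the order `T, 0, 1, …, T - 1` (the values are `-1 < 0 < 1 < … < T - 1`) -/
theorem rk_first {T b : ℕ} (hb : b ≤ T) :
    rk (T + 1) (sp T) 1 b = if b = T then 0 else b + 1 := by
  unfold rk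
  split_ifs with h
  · subst h
    rw [Finset.card_eq_zero, Finset.filter_eq_empty_iff]
    rintro c _ ⟨h1, h2⟩
    rw [sp_ne h1, sp_top] at h2
    omega
  · have e : (Finset.range (T + 1)).filter (fun c => c ≠ b ∧ sp T c + 1 * c ≤ sp T b + 1 * b) =
        insert T (Finset.range b) := by
      ext c
      rw [Finset.mem_filter, Finset.mem_insert, Finset.mem_range, Finset.mem_range, sp_ne h]
      rcases eq_or_ne c T with rfl | hc
      · rw [sp_top]
        constructor
        · intro _
          exact Or.inl rfl
        · intro _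
          refine ⟨by omega, Ne.symm h, by omega⟩
      · rw [sp_ne hc]
        constructor
        · rintro ⟨_, h1, h2⟩
          right
          omega
        · rintro (h1 | h1)
          · exact absurd h1 hc
          · refine ⟨by omega, by omega, by omega⟩
    rw [e, Finset.card_insert_of_notMem (by rw [Finset.mem_range]; omega), Finset.card_range]

/-- the standard order (the values are `(T + 2) b` for `b < T` and
`(T + 2) T - (T + 1) > (T + 2) (T - 1)` for `b = T`) -/
theorem rk_std {T b : ℕ} (hb : b ≤ T) : rk (T + 1) (sp T) (T + 2) b = b := by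
  unfold rk
  have e : (Finset.range (T + 1)).filter
      (fun c => c ≠ b ∧ sp T c + ((T : ℤ) + 2) * c ≤ sp T b + ((T : ℤ) + 2) * b) =
        Finset.range b := by
    ext c
    rw [Finset.mem_filter, Finset.mem_range, Finset.mem_range]
    rcases eq_or_ne b T with rfl | hbT
    · rw [sp_top]
      constructor
      · rintro ⟨h1, h2, _⟩
        omega
      · intro h1
        refine ⟨by omega, by omega, ?_⟩
        rw [sp_ne (by omega)]
        have h2 : (c : ℤ) + 1 ≤ b := by exact_mod_cast h1
        nlinarith
    · rw [sp_ne hbT]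
      rcases eq_or_ne c T with rfl | hc
      · rw [sp_top]
        constructor
        · rintro ⟨_, h1, h2⟩
          have h3 : (b : ℤ) + 1 ≤ c := by
            have : b < c := by omega
            exact_mod_cast this
          have h4 : ((c : ℤ) + 2) * (b + 1) ≤ ((c : ℤ) + 2) * c :=
            mul_le_mul_of_nonneg_left h3 (by positivity)
          nlinarith
        · intro h1
          omega
      · rw [sp_ne hc]
        constructor
        · rintro ⟨_, h1, h2⟩
          have h3 : (c : ℤ) ≤ b := by
            by_contra h3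
            have h3' : (b : ℤ) < c := not_le.1 h3
            have h4 := mul_lt_mul_of_pos_left h3' (show (0 : ℤ) < (T : ℤ) + 2 by positivity)
            linarith
          omega
        · intro h1
          refine ⟨by omega, by omega, ?_⟩
          have h3 : (c : ℤ) ≤ b := by exact_mod_cast h1.le
          have h4 := mul_le_mul_of_nonneg_left h3 (show (0 : ℤ) ≤ (T : ℤ) + 2 by positivity)
          linarith
  rw [e, Finset.card_range]

/-- HY3. The points of `J` have multiplicity `T` and take the order `T, 0, 1, …, T - 1`, all the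
others the standard order. The load of the row `b < T` is `∑ (μ i - b) - |J|` (`T - b ≥ 1` for
`i ∈ J`), the load of the row `T` is `∑ (μ i - T) + |J| T`. -/
theorem cert_top {n T : ℕ} {μ : Fin n → ℕ} {J : Finset (Fin n)} (hJ : ∀ i ∈ J, μ i = T)
    {r : ℕ → ℕ} (h : ∀ b < T, r b + J.card ≤ ∑ i, (μ i - b))
    (hT : r T ≤ ∑ i, (μ i - T) + J.card * T) :
    Cert μ Finset.univ (T + 1) (fun b => (r b : ℤ)) := by
  classical
  refine ⟨sp T, fun i => if i ∈ J then 1 else (T : ℤ) + 2, fun b hb => ?_⟩
  have hrk : ∀ (i : Fin n) (b : ℕ), b ≤ T →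
      rk (T + 1) (sp T) (if i ∈ J then 1 else (T : ℤ) + 2) b =
        if i ∈ J then (if b = T then 0 else b + 1) else b := by
    intro i b hb
    split_ifs with h1 h2
    · rw [rk_first hb, if_pos h2]
    · rw [rk_first hb, if_neg h2]
    · exact rk_std hb
  have hs : ∀ k : ℕ, J.card * k = ∑ i : Fin n, if i ∈ J then k else 0 := by
    intro k
    rw [Finset.sum_ite_mem, Finset.univ_inter, Finset.sum_const, smul_eq_mul]
  rw [← Nat.cast_sum, Nat.cast_le]
  have hbT : b ≤ T := by omega
  rcases eq_or_ne b T with rfl | hb1
  · refine hT.trans (le_of_eq ?_)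
    rw [hs, ← Finset.sum_add_distrib]
    refine Finset.sum_congr rfl fun i _ => ?_
    beta_reduce
    rw [hrk i _ le_rfl, if_pos rfl]
    split_ifs with h1
    · rw [hJ i h1]
      omega
    · rfl
  · have hb' : b < T := by omega
    have e : ∑ i, (μ i - rk (T + 1) (sp T) (if i ∈ J then 1 else (T : ℤ) + 2) b) + J.card =
        ∑ i, (μ i - b) := by
      rw [← mul_one J.card, hs, ← Finset.sum_add_distrib]
      refine Finset.sum_congr rfl fun i _ => ?_
      rw [hrk i _ hbT, if_neg hb1]
      split_ifs with h1
      · rw [hJ i h1]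
        omega
      · rfl
    have h1 := h b hb'
    beta_reduce
    omega

end Pool.Agent.Lib.MP_6b2d39_agHy
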