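import Pool.Agent.Lib.MP_6b2d39_agHl.Rows
import Pool.Agent.Lib.MP_6b2d39_agHl.FF
import Pool.Agent.Lib.MP_6b2d39_agHl.Count

set_option autoImplicit false

namespace Pool.Agent.Lib.MP_6b2d39_agHy

open Pool.Agent.Lib.MP_6b2d39_agHl

/-- HY9. `stp` is 1-Lipschitz in the length of the row `0` (the levels of the `c` with `c < x` or
`r 0 ≤ c` do not change) -/
theorem stp_update {s n : ℕ} {r : ℕ → ℕ} {x : ℕ} (hx : x ≤ r 0) (b : ℕ) :
    stp s n r b ≤ stp s n (Function.update r 0 x) b + (r 0 - x) := by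
  have hk : ∀ c, ¬ (x ≤ c ∧ c < r 0) → kk s n (Function.update r 0 x) c = kk s n r c := by
    intro c hc
    unfold kk
    congr 1
    refine Finset.filter_congr fun i _ => ?_
    rcases Nat.eq_zero_or_pos i with rfl | hi
    · rw [Function.update_self]
      omega
    · rw [Function.update_of_ne (by omega)]
  have hsub : (Finset.range (s * n + ∑ i ∈ Finset.range n, r i)).filter
      (fun c => b < kk s n r c) ⊆
      (Finset.range (s * n + ∑ i ∈ Finset.range n, (Function.update r 0 x) i)).filter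
      (fun c => b < kk s n (Function.update r 0 x) c) ∪ Finset.Ico x (r 0) := by
    intro c hc
    have h1 := (Finset.mem_filter.1 hc).2
    rw [Finset.mem_union]
    by_cases h2 : x ≤ c ∧ c < r 0
    · exact Or.inr (Finset.mem_Ico.2 h2)
    · left
      rw [← hk c h2] at h1
      exact Finset.mem_filter.2 ⟨Finset.mem_range.2 (lt_of_kk h1), h1⟩
  unfold stp
  refine (Finset.card_le_card hsub).trans ((Finset.card_union_le _ _).trans ?_)
  rw [Nat.card_Ico]

variable {n s : ℕ} {r : ℕ → ℕ} {P A E : ℝ}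

/-- the row `0` is longer by at most `E` (`stp_update` with `x = min (r 0) ⌊A⌋₊`, `row_up`) -/
theorem stp_row0 (hP : 0 < P) (hPs : P ≤ s) (hA : 0 ≤ A) (hE : 0 ≤ E)
    (h : ∀ b, 1 ≤ b → (r b : ℝ) ≤ max (A - P * b) 0) (h0 : (r 0 : ℝ) ≤ A + E) (b : ℕ) :
    (stp s n r b : ℝ) ≤ ff s P (A - s * b) + E + 1 := by
  have h1 := stp_update (s := s) (n := n) (r := r) (Nat.min_le_left (r 0) ⌊A⌋₊) b
  have h2 : ((stp s n r b : ℕ) : ℝ) ≤
      (stp s n (Function.update r 0 (min (r 0) ⌊A⌋₊)) b : ℕ) +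
        ((r 0 - min (r 0) ⌊A⌋₊ : ℕ) : ℝ) := by exact_mod_cast h1
  have h3 : (stp s n (Function.update r 0 (min (r 0) ⌊A⌋₊)) b : ℝ) ≤ ff s P (A - s * b) := by
    refine row_up hP hPs (fun c => ?_) b
    rcases Nat.eq_zero_or_pos c with rfl | hc
    · rw [Function.update_self]
      refine le_max_of_le_left ?_
      have h4 : ((min (r 0) ⌊A⌋₊ : ℕ) : ℝ) ≤ (⌊A⌋₊ : ℕ) := by
        exact_mod_cast Nat.min_le_right _ _
      have h5 := Nat.floor_le hA
      simp only [Nat.cast_zero, mul_zero, sub_zero]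
      exact h4.trans h5
    · rw [Function.update_of_ne (by omega)]
      exact h c hc
  have h6 : ((r 0 - min (r 0) ⌊A⌋₊ : ℕ) : ℝ) ≤ E + 1 := by
    rcases Nat.le_total (r 0) ⌊A⌋₊ with h7 | h7
    · rw [min_eq_left h7, Nat.sub_self, Nat.cast_zero]
      linarith
    · rw [min_eq_right h7, Nat.cast_sub h7]
      have h8 := Nat.lt_floor_add_one A
      linarith
  linarith

/-- (`row_up` with `A + E`, `ff_of_nonpos`) -/
theorem stp_row0_zero (hP : 0 < P) (hPs : P ≤ s) (hE : 0 ≤ E)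
    (h : ∀ b, 1 ≤ b → (r b : ℝ) ≤ max (A - P * b) 0) (h0 : (r 0 : ℝ) ≤ A + E) {b : ℕ}
    (hb : A + E ≤ s * b) : stp s n r b = 0 := by
  have h1 : (stp s n r b : ℝ) ≤ ff s P (A + E - s * b) := by
    refine row_up hP hPs (fun c => ?_) b
    rcases Nat.eq_zero_or_pos c with rfl | hc
    · refine le_max_of_le_left ?_
      simpa using h0
    · exact (h c hc).trans (max_le_max (by linarith) le_rfl)
  rw [ff_of_nonpos hP (by linarith)] at h1
  have h2 : ((stp s n r b : ℕ) : ℝ) ≤ ((0 : ℕ) : ℝ) := by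
    rw [Nat.cast_zero]
    exact h1
  exact Nat.le_zero.1 (Nat.cast_le.1 h2)

end Pool.Agent.Lib.MP_6b2d39_agHy
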