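import Pool.Agent.Lib.MP_6b2d39_agHy.PreRows
import Pool.Agent.Lib.MP_6b2d39_agHy.Row0

set_option autoImplicit false

namespace Pool.Agent.Lib.MP_6b2d39_agHy

open Pool.Agent.Lib.MP_6b2d39_agHl Pool.Agent.Lib.MP_6b2d39_agHx

/-- HY12. ALL THE STEPS. `pre_rows` with `N = d + 1`, then the step `s = xe xf`, `P = xe ^ 2`,
`A = xe a`, `a = up + (xe - y) ≥ 0` (as `q ≤ d`), `E = q ^ 2 / 2`. `T` is the natural number with
`s T < A + E ≤ s (T + 1)` (`T = ⌈(A + E) / s⌉₊ - 1`, `TT = a + E / xe`). Rows `b > T`: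
`stp_row0_zero`. Rows `b < T`: `A - s b ≥ s - E ≥ s - P`, so `stp_row0` and `ff_le_sharp` give
`xf (a - (xf - xe) / 2) + xe ^ 2 / 8 + E + 1 - xf ^ 2 b`. Row `T`: `ff_le` and `A - s T ≤ s`
(`s ^ 2 / P = xf ^ 2`). Lower bound: `row_lo`, `le_ff_sharp`. -/
theorem fin_rows {q s d : ℕ} {xe xf : ℝ} (hq : 1 ≤ q) (hc : Tch ((q : ℝ) + 1 / q) xe)
    (hs : xe * xf = s) (hle : xe ^ 2 ≤ s) (hd : q ≤ d) :
    ∃ (r : ℕ → ℕ) (T : ℕ), Red (d + 1) (tri (d + 1)) r ∧ (∀ b, T < b → r b = 0) ∧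
      (∀ b < T, (r b : ℝ) ≤ UU (d + 3 / 2) q xe xf - xf ^ 2 * b) ∧
      (∀ b, WW (d + 3 / 2) q xe xf - xf ^ 2 * b ≤ (r b : ℝ)) ∧
      (r T : ℝ) ≤ xf ^ 2 + (q : ℝ) ^ 2 / 2 + 1 ∧
      xf * T < TT (d + 3 / 2) q xe ∧ TT (d + 3 / 2) q xe ≤ xf * (T + 1) := by
  have hq1 : (1 : ℝ) ≤ q := by exact_mod_cast hq
  have hq0 : (0 : ℝ) < q := by linarith
  have hdq : (q : ℝ) ≤ d := by exact_mod_cast hd
  have hiq : (0 : ℝ) < 1 / q := by positivity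
  have hy0 : (0 : ℝ) < (q : ℝ) + 1 / q := by positivity
  have hyx : (q : ℝ) + 1 / q ≤ xe := hc.le hy0
  have hqx : (q : ℝ) ≤ xe := by linarith
  have hx0 : 0 < xe := by linarith
  have hP : 0 < xe ^ 2 := by positivity
  have hs0 : (0 : ℝ) < s := hP.trans_le hle
  have hs1 : 1 ≤ s := by exact_mod_cast hs0
  have hxf : 0 < xf := by
    have h1 : 0 < xe * xf := by rw [hs]; exact hs0
    exact (pos_iff_pos_of_mul_pos h1).1 hx0
  obtain ⟨r, hr, hz, hu, h0, hl⟩ := pre_rows hq hc (d + 1)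
  obtain ⟨a, ha⟩ : ∃ a : ℝ, a = up (d + 1) q + (xe - ((q : ℝ) + 1 / q)) := ⟨_, rfl⟩
  obtain ⟨c, hcc⟩ : ∃ c : ℝ, c = lo (d + 1) q - (xe - ((q : ℝ) + 1 / q)) := ⟨_, rfl⟩
  obtain ⟨E, hE⟩ : ∃ E : ℝ, E = (q : ℝ) ^ 2 / 2 := ⟨_, rfl⟩
  push_cast at hu h0 hl
  rw [← ha, ← hE] at h0
  rw [← ha] at hu
  rw [← hcc] at hl
  have ha0 : 0 ≤ a := by
    rw [ha]
    unfold up
    push_cast
    have h1 : (0 : ℝ) < 1 / (8 * q) := by positivity
    linarith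
  rw [max_eq_left ha0] at h0
  have hE0 : 0 < E := by rw [hE]; positivity
  have hEP : E ≤ xe ^ 2 := by
    have h1 : (q : ℝ) ^ 2 ≤ xe ^ 2 := pow_le_pow_left₀ hq0.le hqx 2
    rw [hE]
    have h2 : (0 : ℝ) ≤ (q : ℝ) ^ 2 := by positivity
    linarith
  have hA0 : 0 ≤ xe * a := mul_nonneg hx0.le ha0
  have hTT : xe * a + E = xe * TT (d + 3 / 2) q xe := by
    rw [ha, hE]
    unfold TT up
    push_cast
    field_simp
    ring
  obtain ⟨T, hT1, hT2⟩ : ∃ T : ℕ, (s : ℝ) * T < xe * a + E ∧ xe * a + E ≤ s * (T + 1) := by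
    have h1 : 0 < ⌈(xe * a + E) / s⌉₊ := Nat.ceil_pos.2 (div_pos (by linarith) hs0)
    obtain ⟨T, hT⟩ : ∃ T, ⌈(xe * a + E) / s⌉₊ = T + 1 := ⟨_, (Nat.succ_pred_eq_of_pos h1).symm⟩
    refine ⟨T, ?_, ?_⟩
    · have h2 : T < ⌈(xe * a + E) / s⌉₊ := by omega
      have h3 := Nat.lt_ceil.1 h2
      rw [lt_div_iff₀ hs0] at h3
      linarith
    · have h2 := Nat.le_ceil ((xe * a + E) / s)
      rw [hT, div_le_iff₀ hs0] at h2
      push_cast at h2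
      linarith
  have hup : ∀ b, (stp s (d + 1) r b : ℝ) ≤ ff s (xe ^ 2) (xe * a - s * b) + E + 1 :=
    fun b => stp_row0 hP hle hA0 hE0.le hu h0 b
  refine ⟨stp s (d + 1) r, T, hr.tail ⟨s, hs1, rfl⟩, fun b hb => ?_, fun b hb => ?_, fun b => ?_,
    ?_, ?_, ?_⟩
  · refine stp_row0_zero hP hle hE0.le hu h0 (hT2.trans ?_)
    refine mul_le_mul_of_nonneg_left ?_ hs0.le
    exact_mod_cast hb
  · have h1 : (s : ℝ) - xe ^ 2 ≤ xe * a - s * b := by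
      have h2 : (b : ℝ) + 1 ≤ T := by exact_mod_cast hb
      have h3 : (s : ℝ) * (b + 1) ≤ s * T := mul_le_mul_of_nonneg_left h2 hs0.le
      linarith
    refine (hup b).trans ((add_le_add_left (add_le_add_left (ff_le_sharp hP hle h1) E) 1).trans
      (le_of_eq ?_))
    rw [← hs, ha, hE]
    unfold UU up
    push_cast
    field_simp
    ring
  · refine le_trans (le_of_eq ?_) ((le_ff_sharp hP hle).trans (row_lo hP hle hz hl b))
    rw [← hs, hcc]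
    unfold WW lo
    push_cast
    field_simp
    ring
  · have h1 := hup T
    have h2 := ff_le (T := xe * a - s * T) hP hle
    have h3 : max (xe * a - (s : ℝ) * T) 0 ≤ s := max_le (by linarith) hs0.le
    have h4 : (s : ℝ) / xe ^ 2 * max (xe * a - (s : ℝ) * T) 0 ≤ s / xe ^ 2 * s :=
      mul_le_mul_of_nonneg_left h3 (by positivity)
    have h5 : (s : ℝ) / xe ^ 2 * s = xf ^ 2 := by
      rw [← hs]
      field_simp
    rw [← hE]
    linarith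
  · rw [hTT, ← hs, mul_assoc] at hT1
    exact lt_of_mul_lt_mul_left hT1 hx0.le
  · rw [hTT, ← hs, mul_assoc] at hT2
    exact le_of_mul_le_mul_left hT2 hx0

end Pool.Agent.Lib.MP_6b2d39_agHy
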