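import Pool.Agent.Lib.MP_6b2d39_agHl.Defs

open Polynomial

set_option autoImplicit false

namespace Pool.Agent.Lib.MP_6b2d39_agHy

private theorem k_point {f : ℂ[X][X]} (hf : f ≠ 0) : ∃ x y : ℂ, (f.eval (C x)).eval y ≠ 0 := by
  by_contra hcon
  have hcon' : ∀ x y : ℂ, (f.eval (C x)).eval y = 0 := by
    intro x y
    by_contra h
    exact hcon ⟨x, y, h⟩
  apply hf
  have h1 : ∀ x : ℂ, f.eval (C x) = 0 := by
    intro x
    apply Polynomial.funext
    intro y
    rw [hcon' x y, eval_zero]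
  refine Polynomial.eq_zero_of_infinite_isRoot f ?_
  refine Set.Infinite.mono (s := Set.range (C : ℂ → ℂ[X])) ?_ ?_
  · rintro _ ⟨x, rfl⟩
    exact h1 x
  · exact Set.infinite_range_of_injective C_injective

/-- evaluation at a point, as a linear map -/
private noncomputable def k_ev (x y : ℂ) : ℂ[X][X] →ₗ[ℂ] ℂ where
  toFun f := (f.eval (C x)).eval y
  map_add' f g := by rw [eval_add, eval_add]
  map_smul' c f := by rw [eval_smul, eval_smul, RingHom.id_apply]

/-- HY4. `u` general points kill a space of dimension at most `u`. (induction on `u`; a nonzero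
polynomial does not vanish at some point; the subspace of the polynomials vanishing there is
smaller) -/
theorem exists_kill : ∀ (u : ℕ) (W : Submodule ℂ ℂ[X][X]) [FiniteDimensional ℂ W],
    Module.finrank ℂ W ≤ u → ∃ x y : Fin u → ℂ, ∀ f ∈ W,
      (∀ i, (f.eval (C (x i))).eval (y i) = 0) → f = 0 := by
  intro u
  induction u with
  | zero =>
    intro W _ hW
    have h0 : W = ⊥ := Submodule.finrank_eq_zero.1 (Nat.le_zero.1 hW)
    refine ⟨fun _ => 0, fun _ => 0, fun f hf _ => ?_⟩
    rw [h0] at hf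
    exact (Submodule.mem_bot ℂ).1 hf
  | succ u ih =>
    intro W _ hW
    by_cases h0 : W = ⊥
    · refine ⟨fun _ => 0, fun _ => 0, fun f hf _ => ?_⟩
      rw [h0] at hf
      exact (Submodule.mem_bot ℂ).1 hf
    obtain ⟨f₀, hf₀, hne⟩ := Submodule.exists_mem_ne_zero_of_ne_bot h0
    obtain ⟨x₀, y₀, hxy⟩ := k_point hne
    have hlt : W ⊓ LinearMap.ker (k_ev x₀ y₀) < W := by
      refine lt_of_le_of_ne inf_le_left ?_
      intro h
      rw [← h] at hf₀
      exact hxy (LinearMap.mem_ker.1 hf₀.2)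
    have hfd : FiniteDimensional ℂ (W ⊓ LinearMap.ker (k_ev x₀ y₀) : Submodule ℂ ℂ[X][X]) :=
      Submodule.finiteDimensional_inf_left _ _
    have hrk := Submodule.finrank_lt_finrank_of_lt hlt
    obtain ⟨x, y, hk⟩ := ih (W ⊓ LinearMap.ker (k_ev x₀ y₀)) (by omega)
    refine ⟨Fin.cons x₀ x, Fin.cons y₀ y, fun f hf hv => ?_⟩
    refine hk f ⟨hf, ?_⟩ ?_
    · have h1 := hv 0
      rw [Fin.cons_zero, Fin.cons_zero] at h1
      exact LinearMap.mem_ker.2 h1
    · intro i
      have h1 := hv i.succ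
      rw [Fin.cons_succ, Fin.cons_succ] at h1
      exact h1

end Pool.Agent.Lib.MP_6b2d39_agHy
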