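import Pool.Agent.Lib.MP_6b2d39_agHy.Defs

set_option autoImplicit false

namespace Pool.Agent.Lib.MP_6b2d39_agHy

variable {R ε m q xe xf S D : ℝ}

private theorem nb_low (h : Fc R ε m q xe xf) (D : ℝ) :
    xf * (D - xf / 2) - R / 500 ≤ WW D q xe xf := by
  obtain ⟨e0, e1, r0, m0, q1, q2, q3, xe0, xe1, xf0, xf1, xf2⟩ := h
  have hq : 0 < q := by linarith
  have hqi : 1 / q ≤ ε / 1000 := by
    rw [div_le_iff₀ hq]
    exact q3
  have hqi0 : 0 < 1 / q := by positivity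
  have h98 : 9 / (8 * q) = 9 / 8 * (1 / q) := by
    field_simp
  have h1 : xe ^ 2 / 8 ≤ R / 4000 := by
    have h2 : xe ≤ 2 * q := by linarith
    have h3 : 0 ≤ xe := by linarith
    have h4 : xe ^ 2 ≤ (2 * q) ^ 2 := pow_le_pow_left₀ h3 h2 2
    have h5 : ε / 1000 * R ≤ 1 / 2000 * R := mul_le_mul_of_nonneg_right (by linarith) (by linarith)
    have h6 : (2 * q) ^ 2 = 4 * q ^ 2 := by ring
    rw [h6] at h4
    linarith
  have h2 : xf * ((xe - q) / 2 + 1 / 8 * (1 / q)) ≤ R * (1 / 2000) :=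
    mul_le_mul xf1 (by linarith) (by linarith) (by linarith)
  have h3 : WW D q xe xf = xf * (D - xf / 2) - xf * ((xe - q) / 2 + 1 / 8 * (1 / q)) -
      xe ^ 2 / 8 := by
    rw [WW, h98]
    ring
  rw [h3]
  linarith

private theorem nb_xf (h : Fc R ε m q xe xf) {t : ℝ} (ht : t ≤ R * (m + 2)) :
    (R - xf) * t ≤ 1 / 2 := by
  obtain ⟨e0, e1, r0, m0, q1, q2, q3, xe0, xe1, xf0, xf1, xf2⟩ := h
  have hR : 0 < R := by linarith
  calc (R - xf) * t ≤ (R - xf) * (R * (m + 2)) :=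
        mul_le_mul_of_nonneg_left ht (by linarith)
    _ = R * ((R - xf) * (m + 2)) := by ring
    _ ≤ R * (1 / (2 * R)) := mul_le_mul_of_nonneg_left xf2 hR.le
    _ = 1 / 2 := by field_simp

/-- HY14. `WW ≥ xf (D - xf / 2) - R / 500`
(`xe - y ≤ ε / 1000`, `1 / q ≤ ε / 1000`, `xe ^ 2 / 8 ≤ q ^ 2 / 2`), and
`xf (D - xf / 2) = R (D - R / 2) - (R - xf) (D - (R + xf) / 2) ≥ R (D - R / 2) - 1 / 2` as
`D ≤ R (m + 2)` -/
theorem w_lower (h : Fc R ε m q xe xf) (h0 : 0 ≤ S) (hS : S ≤ R ^ 2 * (m + 1))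
    (hD : |D - (S / R + R / 2)| ≤ R / 8) : S - WW D q xe xf ≤ R ^ 2 / 4 := by
  have hl := nb_low h D
  have r0 := h.r0
  have m0 := h.m0
  have hR : 0 < R := by linarith
  have hSR : S / R ≤ R * (m + 1) := by
    rw [div_le_iff₀ hR]
    linarith
  rw [abs_le] at hD
  obtain ⟨h1, h2⟩ := hD
  have h3 : (R - xf) * (D - (R + xf) / 2) ≤ 1 / 2 := by
    refine nb_xf h ?_
    have := h.xf0
    linarith
  have h4 : R * (S / R - R / 8) ≤ R * (D - R / 2) :=
    mul_le_mul_of_nonneg_left (by linarith) hR.le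
  have h5 : R * (S / R - R / 8) = S - R ^ 2 / 8 := by
    field_simp
  have h6 : xf * (D - xf / 2) = R * (D - R / 2) - (R - xf) * (D - (R + xf) / 2) := by ring
  have h7 : 1000000 * R ≤ R ^ 2 := by nlinarith
  rw [h5] at h4
  rw [h6] at hl
  linarith

/-- HY15. otherwise `WW ≥ xf (Y + R / 8 - R / 2) - R / 500 = xf (S / R + R / 8) - R / 500 ≥ S`:
`(R - xf) S / R ≤ (R - xf) R (m + 1) ≤ 1 / 2`, `xf ≥ R / 2` -/
theorem d_upper (h : Fc R ε m q xe xf) (h0 : 0 ≤ S) (hS : S ≤ R ^ 2 * (m + 1))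
    (hW : WW D q xe xf < S) : D ≤ S / R + R / 2 + R / 8 := by
  by_contra hlt
  rw [not_le] at hlt
  have hl := nb_low h D
  have r0 := h.r0
  have m0 := h.m0
  have x0 := h.xf0
  have x1 := h.xf1
  have hR : 0 < R := by linarith
  have hSR : S / R ≤ R * (m + 1) := by
    rw [div_le_iff₀ hR]
    linarith
  have h1 : (R - xf) * (S / R) ≤ 1 / 2 := nb_xf h (by linarith)
  have h2 : (R - xf) * (2 * R) ≤ 1 / 2 * 1 := by
    have h3 := nb_xf h (t := 2 * R) (by nlinarith)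
    linarith
  have h3 : R / 2 ≤ xf := by nlinarith
  have h4 : R / 2 * (R / 8) ≤ xf * (R / 8) := mul_le_mul_of_nonneg_right h3 (by linarith)
  have h5 : xf * (S / R + R / 8) ≤ xf * (D - xf / 2) :=
    mul_le_mul_of_nonneg_left (by linarith) x0.le
  have h6 : xf * (S / R + R / 8) = S - (R - xf) * (S / R) + xf * (R / 8) := by
    field_simp
    ring
  have h7 : 1000000 * R ≤ R ^ 2 := by nlinarith
  have h8 : R / 2 * (R / 8) = R ^ 2 / 16 := by ring
  rw [h6] at h5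
  rw [h8] at h4
  linarith

end Pool.Agent.Lib.MP_6b2d39_agHy
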