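import Pool.Agent.Lib.MP_6b2d39_agHy.FinRows
import Pool.Agent.Lib.MP_6b2d39_agHy.NumA
import Pool.Agent.Lib.MP_6b2d39_agHy.NumB
import Pool.Agent.Lib.MP_6b2d39_agHy.NumC
import Pool.Agent.Lib.MP_6b2d39_agHy.Dem
import Pool.Agent.Lib.MP_6b2d39_agHy.EndPos
import Pool.Agent.Lib.MP_6b2d39_agHl.RowsCmp
import Pool.Agent.Lib.MP_6b2d39_agHl.Last

set_option autoImplicit false

namespace Pool.Agent.Lib.MP_6b2d39_agHy

open Pool.Agent.Lib.MP_6b2d39_agHl Pool.Agent.Lib.MP_6b2d39_agHx Pool.Agent.Lib.MP_6b2d39_ag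
  Pool.Agent.Lib.MP_6b2d39_agCr Pool.Agent.Lib.MP_6b2d39_agNw

private theorem mpos_tri (d : ℕ) :
    ∑ b ∈ Finset.range (d + 1), tri (d + 1) b = (d + 2).choose 2 := by
  unfold tri
  induction d with
  | zero => rfl
  | succ d ih =>
    rw [Finset.sum_range_succ']
    have h1 : ∑ b ∈ Finset.range (d + 1), (d + 1 + 1 - (b + 1)) =
        ∑ b ∈ Finset.range (d + 1), (d + 1 - b) :=
      Finset.sum_congr rfl fun b _ => by omega
    have h2 : (d + 1 + 2).choose 2 = (d + 2) + (d + 2).choose 2 := by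
      have h3 := Nat.choose_succ_succ' (d + 2) 1
      rw [Nat.choose_one_right] at h3
      exact h3
    rw [h1, ih, h2, Nat.sub_zero, Nat.add_comm]

/-- `(n - xf ^ 2) m ≤ 1` -/
private theorem mpos_loss {R ε m q xe xf : ℝ} (h : Fc R ε m q xe xf) :
    (R ^ 2 - xf ^ 2) * m ≤ 1 := by
  have hR : 0 < R := by linarith [h.r0]
  have h1 := h.xf2
  have h2 : 0 ≤ R - xf := by linarith [h.xf1]
  have h3 : 0 ≤ (R - xf) * m := mul_nonneg h2 h.m0
  have h4 : (R - xf) * m ≤ 1 / (2 * R) := by nlinarith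
  have h5 : (R ^ 2 - xf ^ 2) * m = (R + xf) * ((R - xf) * m) := by ring
  have h6 : (R + xf) * ((R - xf) * m) ≤ (2 * R) * ((R - xf) * m) :=
    mul_le_mul_of_nonneg_right (by linarith [h.xf1]) h3
  have h7 : (2 * R) * ((R - xf) * m) ≤ 2 * R * (1 / (2 * R)) :=
    mul_le_mul_of_nonneg_left h4 (by linarith)
  have h8 : 2 * R * (1 / (2 * R)) = 1 := by field_simp
  linarith

/-- HY25. (`ms_of`, `d_lower`, `fin_rows`; if `S ≤ WW`: `rows_pos`, `emp_last`, as in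
`Hx/Large.lean`; otherwise `d_upper`, `size`, `top_real`, `card_top`, `dem_bounds`, `vd_rows`,
`width`, `w_lower`, `end_pos` with `G = S - UU - 1`, `σ = UU - WW + 1`; `Red.emp`) -/
theorem main_pos {n q s d m : ℕ} {ε xe xf : ℝ} {μ : Fin n → ℕ}
    (hμ : ∀ i, μ i = m ∨ μ i = m + 1) (hm : 100 ≤ m) (hF : Fc (√n) ε m q xe xf)
    (hq : 1 ≤ q) (hc : Tch ((q : ℝ) + 1 / q) xe) (hs : xe * xf = s) (hle : xe ^ 2 ≤ s)
    (hf : xf ^ 2 ≤ n) (hv : ε * d ≤ ((vd d μ : ℤ) : ℝ)) :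
    EmpQ (dgm (tri (d + 1)) (d + 1))
      (Sum.elim μ (fun _ => 1) : Fin n ⊕ Fin (vd d μ).toNat → ℕ) Finset.univ := by
  obtain ⟨R, hR⟩ : ∃ R : ℝ, R = √(n : ℝ) := ⟨_, rfl⟩
  rw [← hR] at hF
  have hR0 := hF.r0
  have hRn : R ^ 2 = (n : ℝ) := by
    rw [hR]
    exact Real.sq_sqrt (Nat.cast_nonneg n)
  have hn : 1 ≤ n := by
    rcases Nat.eq_zero_or_pos n with h | h
    · rw [h] at hR
      simp only [Nat.cast_zero, Real.sqrt_zero] at hR
      linarith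
    · exact h
  obtain ⟨S, hS⟩ : ∃ S : ℝ, S = ((∑ i, μ i : ℕ) : ℝ) := ⟨_, rfl⟩
  have hM := ms_of hn hμ
  rw [← hR, ← hS] at hM
  have hd0 : (0 : ℝ) ≤ d := Nat.cast_nonneg d
  have hm' : (100 : ℝ) ≤ m := by exact_mod_cast hm
  have hε := hF.e0
  have hε1 := hF.e1
  have hεd : 0 ≤ ε * d := mul_nonneg hε.le hd0
  have hRp : 0 < R := by linarith
  -- the degree
  have e1 := vd_real (d := d) μ
  have hv0 : 0 ≤ ((d : ℝ) + 1) * (d + 2) / 2 - ((∑ i, (μ i + 1).choose 2 : ℕ) : ℝ) := by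
    rw [← e1]
    linarith
  have hDl := d_lower hR0 hm' hM hd0 hv0
  have hS0 : 0 ≤ S := by
    rw [hS]
    exact Nat.cast_nonneg _
  have hSR : R * m ≤ S / R := by
    rw [le_div_iff₀ hRp]
    have h1 := hM.s0
    have h2 : R * m * R = R ^ 2 * m := by ring
    linarith
  have hRd : R * m ≤ d := by linarith
  have hqR : (q : ℝ) ≤ R := by
    have h1 := hF.q1
    have h2 := hF.q2
    have h3 : ε / 1000 * R ≤ R := by nlinarith
    nlinarith
  have hqd : q ≤ d := by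
    have h1 : (q : ℝ) ≤ d := by nlinarith
    exact_mod_cast h1
  have hmd : m + 1 ≤ d := by
    have h1 : ((m : ℝ) + 1) ≤ d := by nlinarith
    exact_mod_cast h1
  obtain ⟨r, T, hred, r0, rU, rW, rT, t1, t2⟩ := fin_rows hq hc hs hle hqd
  refine hred.emp ?_
  rcases le_or_gt S (WW ((d : ℝ) + 3 / 2) q xe xf) with hSW | hSW
  · -- the points are contained in the rows
    have hle' := rows_pos hμ hf (by rw [← hS]; exact hSW) rW
    have hsum := hred.sum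
    rw [mpos_tri] at hsum
    have hdem := demand_sum (N := d + 1) hμ (by omega)
    have h5 : ∑ b ∈ Finset.range (d + 1), (r b - ∑ i, (μ i - b)) +
        ∑ b ∈ Finset.range (d + 1), ∑ i, (μ i - b) = ∑ b ∈ Finset.range (d + 1), r b := by
      rw [← Finset.sum_add_distrib]
      exact Finset.sum_congr rfl fun b _ => Nat.sub_add_cancel (hle' b)
    rw [hdem, hsum] at h5
    have h6 : vd d μ = ((d + 2).choose 2 : ℤ) - ((∑ i, (μ i + 1).choose 2 : ℕ) : ℤ) := by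
      unfold vd
      push_cast
      rfl
    refine emp_last r (d + 1) μ ?_
    omega
  · have hDu := d_upper hF hS0 hM.s1 hSW
    have hD : |(d : ℝ) + 3 / 2 - (S / R + R / 2)| ≤ R / 8 := by
      rw [abs_le]
      constructor <;> linarith
    obtain ⟨z1, z2⟩ := size hR0 hF.m0 hM.s0 hM.s1 hD
    obtain ⟨T1, T2⟩ := top_real hF hS0 hM.s1 hD t1 t2
    rw [hRn, hS] at T1 T2
    obtain ⟨hTm, hcard⟩ := card_top hn hμ T1 T2
    have hloss : ((n : ℝ) - xf ^ 2) * m ≤ 1 := by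
      rw [← hRn]
      exact mpos_loss hF
    obtain ⟨b1, b2, b3⟩ := dem_bounds hμ hf hloss hTm rU rW
    have hTm' : (T : ℝ) ≤ m + 1 := by
      rcases hTm with h | h
      · rw [h]
        linarith
      · rw [h]
        push_cast
        exact le_rfl
    have hvr := vd_rows hμ hTm hmd hred r0
    obtain ⟨w1, w2⟩ := width hF ((d : ℝ) + 3 / 2)
    have w3 := w_lower hF hS0 hM.s1 hD
    obtain ⟨G, hG⟩ : ∃ G : ℝ, G = S - UU ((d : ℝ) + 3 / 2) q xe xf - 1 := ⟨_, rfl⟩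
    obtain ⟨σ, hσ⟩ : ∃ σ : ℝ, σ = UU ((d : ℝ) + 3 / 2) q xe xf -
        WW ((d : ℝ) + 3 / 2) q xe xf + 1 := ⟨_, rfl⟩
    have hGσ : G + σ = S - WW ((d : ℝ) + 3 / 2) q xe xf := by
      rw [hG, hσ]
      ring
    rw [← hS] at b1 b2
    rw [← hG] at b1
    rw [← hGσ] at b2 w3
    rw [← hσ] at w1 w2
    refine end_pos (v := ((vd d μ : ℤ) : ℝ)) (G := G) (σ := σ) r0 hvr hcard b1 b2 ?_ ?_ ?_ ?_
    · linarith
    · -- `T σ ≤ ε d`
      have h1 : (T : ℝ) * σ ≤ ((m : ℝ) + 1) * (ε / 50 * R) :=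
        mul_le_mul hTm' w2 w1 (by linarith)
      have h2 : ((m : ℝ) + 1) * (ε / 50 * R) ≤ ε * (R * m) := by
        have h3 : ((m : ℝ) + 1) * (ε / 50 * R) = ε * (R * (((m : ℝ) + 1) / 50)) := by ring
        rw [h3]
        refine mul_le_mul_of_nonneg_left (mul_le_mul_of_nonneg_left ?_ (by linarith)) hε.le
        linarith
      have h3 : ε * (R * m) ≤ ε * d := mul_le_mul_of_nonneg_left (by linarith) hε.le
      linarith
    · rw [← hRn]
      linarith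
    · have h1 : (vd d μ) ≤ ((vd d μ).toNat : ℤ) := Int.self_le_toNat _
      exact_mod_cast h1

end Pool.Agent.Lib.MP_6b2d39_agHy
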