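import Pool.Agent.Lib.MP_6b2d39_agHyU.WordU
import Pool.Agent.Lib.MP_6b2d39_agHx.WdT

set_option autoImplicit false

namespace Pool.Agent.Lib.MP_6b2d39_agHy

open Pool.Agent.Lib.MP_6b2d39_agHx Pool.Agent.Lib.MP_6b2d39_agHyU

private theorem tuned_exp {u : ℝ} (h0 : 0 ≤ u) (h1 : u ≤ 1 / 2) : Real.exp u ≤ 1 + 2 * u := by
  have h2 := Real.add_one_le_exp (-u)
  have h3 : Real.exp u * Real.exp (-u) = 1 := by
    rw [← Real.exp_add, add_neg_cancel, Real.exp_zero]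
  have h4 : 1 ≤ (1 + 2 * u) * (1 - u) := by nlinarith
  have h5 := Real.exp_pos u
  calc Real.exp u ≤ Real.exp u * ((1 + 2 * u) * (1 - u)) := le_mul_of_one_le_right h5.le h4
    _ = (1 + 2 * u) * (Real.exp u * (-u + 1)) := by ring
    _ ≤ (1 + 2 * u) * (Real.exp u * Real.exp (-u)) :=
        mul_le_mul_of_nonneg_left (mul_le_mul_of_nonneg_left h2 h5.le) (by linarith)
    _ = 1 + 2 * u := by rw [h3, mul_one]

private theorem tuned_small {n : ℕ} (hn : ⌈Real.exp 3000⌉₊ ≤ n) :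
    Real.exp (-(Real.log n) ^ 2 / 3000) ≤ 1 / n := by
  have h1 : Real.exp 3000 ≤ n := (Nat.le_ceil _).trans (by exact_mod_cast hn)
  have h2 : (0 : ℝ) < n := (Real.exp_pos _).trans_le h1
  have h3 : 3000 ≤ Real.log n := (Real.le_log_iff_exp_le h2).2 h1
  have h4 : Real.exp (-(Real.log n)) = 1 / n := by
    rw [Real.exp_neg, Real.exp_log h2, one_div]
  rw [← h4]
  refine Real.exp_le_exp.2 ?_
  rw [div_le_iff₀ (by norm_num)]
  nlinarith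

private theorem tuned_q {n q : ℕ} (hn : 1024 ≤ n) (h1 : (n : ℝ) ^ (1 / 5 : ℝ) / 2 ≤ q)
    (h2 : (q : ℝ) ≤ (n : ℝ) ^ (1 / 5 : ℝ)) : (2 : ℝ) ≤ q ∧ (q : ℝ) ^ 5 ≤ n := by
  have hnr : (1024 : ℝ) ≤ n := by exact_mod_cast hn
  have h3 : (4 : ℝ) ≤ (n : ℝ) ^ (1 / 5 : ℝ) := by
    have h4 : ((4 : ℝ) ^ (5 : ℕ)) ^ (1 / 5 : ℝ) ≤ (n : ℝ) ^ (1 / 5 : ℝ) :=
      Real.rpow_le_rpow (by norm_num) (by norm_num; exact hn) (by norm_num)
    have h5 : ((4 : ℝ) ^ (5 : ℕ)) ^ (1 / 5 : ℝ) = 4 := by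
      rw [← Real.rpow_natCast, ← Real.rpow_mul (by norm_num)]
      norm_num
    rwa [h5] at h4
  refine ⟨by linarith, ?_⟩
  have h4 : (q : ℝ) ^ 5 ≤ ((n : ℝ) ^ (1 / 5 : ℝ)) ^ 5 := pow_le_pow_left₀ (Nat.cast_nonneg q) h2 5
  have h5 : ((n : ℝ) ^ (1 / 5 : ℝ)) ^ 5 = n := by
    rw [← Real.rpow_natCast, ← Real.rpow_mul (Nat.cast_nonneg n)]
    norm_num
  rwa [h5] at h4

private theorem tuned_rp {q : ℝ} (hq : 1 ≤ q) : 1 / q ≤ q ^ (-(1 / 4) : ℝ) := by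
  have h1 : q ^ (-1 : ℝ) ≤ q ^ (-(1 / 4) : ℝ) :=
    Real.rpow_le_rpow_of_exponent_le hq (by norm_num)
  rw [Real.rpow_neg_one] at h1
  rwa [one_div]

/-- HU12. the tuned chain at the scale `q`: `word_u`, `Wd.tch` with `y = q + 1 / q`,
`y ^ 2 = q ^ 2 + 2 + 1 / q ^ 2`, `B = K` (`1 / q ^ 2 + K (2 K) / z0 ≤ 1 / 2`), `xe = y exp V`,
`xf = sf / xe`, between `√n exp (- 2 η)` and `√n`; `exp (- 4 η) ≥ 1 - 4 η`;
`xe ≤ sf / √n exp (2 η)`, `exp (2 η) - 1 ≤ 4 η ≤ 1 / n`. -/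
theorem tuned : ∃ N0 : ℕ, ∀ n q : ℕ, N0 ≤ n → (n : ℝ) ^ (1 / 5 : ℝ) / 2 ≤ q →
    (q : ℝ) ≤ (n : ℝ) ^ (1 / 5 : ℝ) → ∃ (sf : ℕ) (xe xf : ℝ), Tch ((q : ℝ) + 1 / q) xe ∧
      xe ≤ (q : ℝ) + 1 / q + 2 * (q : ℝ) ^ (-(1 / 4) : ℝ) ∧ xe * xf = sf ∧ xf ^ 2 ≤ n ∧
      n * (1 - Real.exp (-(Real.log n) ^ 2 / 3000)) ≤ xf ^ 2 := by
  obtain ⟨N0, hN0⟩ := word_u
  refine ⟨max N0 (max 1024 ⌈Real.exp 3000⌉₊), fun n q hn hq1 hq2 => ?_⟩
  have hn1 : N0 ≤ n := (le_max_left _ _).trans hn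
  have hn2 : 1024 ≤ n := ((le_max_left _ _).trans (le_max_right _ _)).trans hn
  have hn3 : ⌈Real.exp 3000⌉₊ ≤ n := ((le_max_right _ _).trans (le_max_right _ _)).trans hn
  obtain ⟨K, sf, η, V, hsf, hK, hη, h4, hx, hW, hV, hV'⟩ := hN0 n q hn1 hq1 hq2
  obtain ⟨hq, hq5⟩ := tuned_q hn2 hq1 hq2
  have hsm := tuned_small hn3
  have hnr : (1024 : ℝ) ≤ n := by exact_mod_cast hn2
  have hn0 : (0 : ℝ) < n := by linarith
  have hq0 : (0 : ℝ) < q := by linarith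
  have hqi : (1 : ℝ) / q ≤ 1 / 2 := one_div_le_one_div_of_le (by norm_num) hq
  have hqi0 : (0 : ℝ) < 1 / q := by positivity
  obtain ⟨y, hy⟩ : ∃ y : ℝ, y = (q : ℝ) + 1 / q := ⟨_, rfl⟩
  rw [← hy] at hx hV hV' ⊢
  have hy0 : 0 < y := by
    rw [hy]
    positivity
  -- the chain
  have hy2 : |y ^ 2 - ((q ^ 2 + 2 : ℕ) : ℝ)| ≤ 1 / 4 := by
    have h5 : y ^ 2 - ((q ^ 2 + 2 : ℕ) : ℝ) = (1 / q) ^ 2 := by
      rw [hy]
      push_cast
      field_simp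
      ring
    rw [h5, abs_of_nonneg (by positivity)]
    nlinarith
  have hz0 : (0 : ℝ) < ((q ^ 2 + 2 : ℕ) : ℝ) := by positivity
  have hKr : 16 * (K : ℝ) ^ 2 ≤ ((q ^ 2 + 2 : ℕ) : ℝ) := by exact_mod_cast hK
  have hfr : (K : ℝ) * (((q ^ 2 + 2 + 2 * K : ℕ) : ℝ) - ((q ^ 2 + 2 : ℕ) : ℝ)) /
      ((q ^ 2 + 2 : ℕ) : ℝ) ≤ 1 / 4 := by
    rw [div_le_iff₀ hz0]
    have h5 : (K : ℝ) * (((q ^ 2 + 2 + 2 * K : ℕ) : ℝ) - ((q ^ 2 + 2 : ℕ) : ℝ)) =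
        2 * (K : ℝ) ^ 2 := by
      push_cast
      ring
    rw [h5]
    linarith
  have hT : Tch y (y * Real.exp V) :=
    (hW.tch (by omega) le_rfl (by omega) hy0 (by linarith)).1
  -- the sizes
  have hs0 : 0 < √(n : ℝ) := Real.sqrt_pos.2 hn0
  have hss : √(n : ℝ) * √(n : ℝ) = n := Real.mul_self_sqrt hn0.le
  obtain ⟨s, hs⟩ : ∃ s, s = √(n : ℝ) := ⟨_, rfl⟩
  rw [← hs] at hV hV' hs0 hss hx
  obtain ⟨xe, hxe⟩ : ∃ xe, xe = y * Real.exp V := ⟨_, rfl⟩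
  rw [← hxe] at hT
  have hxe0 : 0 < xe := by
    rw [hxe]
    exact mul_pos hy0 (Real.exp_pos _)
  have hm0 : (0 : ℝ) < sf := by exact_mod_cast hsf
  have hq : 0 < (sf : ℝ) / s := div_pos hm0 hs0
  have hlog : Real.log xe = Real.log y + V := by
    rw [hxe, Real.log_mul hy0.ne' (Real.exp_pos _).ne', Real.log_exp]
  have h1 : (sf : ℝ) / s ≤ xe := by
    rw [← Real.log_le_log_iff hq hxe0, hlog]
    linarith
  have h2 : xe ≤ (sf : ℝ) / s * Real.exp (2 * η) := by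
    rw [← Real.log_le_log_iff hxe0 (mul_pos hq (Real.exp_pos _)), hlog,
      Real.log_mul hq.ne' (Real.exp_pos _).ne', Real.log_exp]
    linarith
  have h3 : (sf : ℝ) ≤ xe * s := by
    rwa [div_le_iff₀ hs0] at h1
  have h5 : xe * s ≤ sf * Real.exp (2 * η) := by
    have h6 := mul_le_mul_of_nonneg_right h2 hs0.le
    have h7 : (sf : ℝ) / s * Real.exp (2 * η) * s = sf * Real.exp (2 * η) := by
      field_simp
    rwa [h7] at h6
  have hnn : (1 : ℝ) / n ≤ 1 / 2 := one_div_le_one_div_of_le (by norm_num) (by linarith)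
  refine ⟨sf, xe, sf / xe, hT, ?_, mul_div_cancel₀ _ hxe0.ne', ?_, ?_⟩
  · have h6 : Real.exp (2 * η) ≤ 1 + 1 / n := by
      have h7 := tuned_exp (u := 2 * η) (by linarith) (by linarith)
      linarith
    obtain ⟨r, hr⟩ : ∃ r : ℝ, r = (q : ℝ) ^ (-(1 / 4) : ℝ) := ⟨_, rfl⟩
    have h7 := tuned_rp (q := q) (by linarith)
    have h8 : (q : ℝ) ^ (-(1 / 4) : ℝ) ≤ 1 :=
      Real.rpow_le_one_of_one_le_of_nonpos (by linarith) (by norm_num)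
    rw [← hr] at h7 h8 hx ⊢
    have h9 : (sf : ℝ) / s * Real.exp (2 * η) ≤ (y + 3 / 2 * r) * (1 + 1 / n) :=
      mul_le_mul hx h6 (Real.exp_pos _).le (by linarith)
    have h10 : (y + 3 / 2 * r) * (1 / n) ≤ 1 / 2 * r := by
      have h11 : y + 3 / 2 * r ≤ 2 * q := by
        rw [hy]
        linarith
      have h12 : (2 * (q : ℝ)) * (1 / n) ≤ 1 / 2 * (1 / q) := by
        rw [mul_one_div, mul_one_div, div_le_div_iff₀ hn0 hq0]
        have h13 : (q : ℝ) ^ 5 = q ^ 3 * (q * q) := by ring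
        have h14 : (8 : ℝ) ≤ q ^ 3 := by
          have h15 : (2 : ℝ) ^ 3 ≤ q ^ 3 := pow_le_pow_left₀ (by norm_num) (by assumption) 3
          linarith
        have h15 : 8 * ((q : ℝ) * q) ≤ q ^ 3 * (q * q) :=
          mul_le_mul_of_nonneg_right h14 (by positivity)
        linarith
      calc (y + 3 / 2 * r) * (1 / n) ≤ (2 * q) * (1 / n) :=
            mul_le_mul_of_nonneg_right h11 (by positivity)
        _ ≤ 1 / 2 * (1 / q) := h12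
        _ ≤ 1 / 2 * r := by linarith
    have h11 : (y + 3 / 2 * r) * (1 + 1 / n) = y + 3 / 2 * r + (y + 3 / 2 * r) * (1 / n) := by
      ring
    rw [h11] at h9
    linarith
  · have h14 : (sf : ℝ) / xe ≤ s := by
      rw [div_le_iff₀ hxe0, mul_comm]
      exact h3
    have h15 : 0 ≤ (sf : ℝ) / xe := (div_pos hm0 hxe0).le
    calc ((sf : ℝ) / xe) ^ 2 ≤ s ^ 2 := pow_le_pow_left₀ h15 h14 2
      _ = n := by rw [pow_two, hss]
  · have h14 : s * Real.exp (-(2 * η)) ≤ sf / xe := by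
      rw [le_div_iff₀ hxe0]
      have h15 := mul_le_mul_of_nonneg_right h5 (Real.exp_pos (-(2 * η))).le
      have h16 : (sf : ℝ) * Real.exp (2 * η) * Real.exp (-(2 * η)) = sf := by
        rw [mul_assoc, ← Real.exp_add, add_neg_cancel, Real.exp_zero, mul_one]
      rw [h16] at h15
      calc s * Real.exp (-(2 * η)) * xe = xe * s * Real.exp (-(2 * η)) := by ring
        _ ≤ sf := h15
    have h15 : 0 ≤ s * Real.exp (-(2 * η)) := (mul_pos hs0 (Real.exp_pos _)).le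
    have h16 : (s * Real.exp (-(2 * η))) ^ 2 = n * Real.exp (-(4 * η)) := by
      have h17 : Real.exp (-(2 * η)) * Real.exp (-(2 * η)) = Real.exp (-(4 * η)) := by
        rw [← Real.exp_add]
        congr 1
        ring
      calc (s * Real.exp (-(2 * η))) ^ 2 =
            s * s * (Real.exp (-(2 * η)) * Real.exp (-(2 * η))) := by ring
        _ = n * Real.exp (-(4 * η)) := by rw [hss, h17]
    calc n * (1 - Real.exp (-(Real.log n) ^ 2 / 3000)) ≤ n * Real.exp (-(4 * η)) := by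
          refine mul_le_mul_of_nonneg_left ?_ hn0.le
          have := Real.add_one_le_exp (-(4 * η))
          linarith
      _ = (s * Real.exp (-(2 * η))) ^ 2 := h16.symm
      _ ≤ (sf / xe) ^ 2 := pow_le_pow_left₀ h15 h14 2

end Pool.Agent.Lib.MP_6b2d39_agHy
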