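import Pool.Agent.Lib.MP_6b2d39_agHy.Defs
import Pool.Agent.Lib.MP_6b2d39_agHy.Tuned
import Pool.Agent.Lib.MP_6b2d39_agHx.Top

set_option autoImplicit false

namespace Pool.Agent.Lib.MP_6b2d39_agHy

open Pool.Agent.Lib.MP_6b2d39_agHx

/-- HY22. `q = ⌊n ^ (1 / 5)⌋₊`, `tuned`. `2 q ^ (-1 / 4) + 1 / q ≤ n ^ (-1 / 25) / 1000` for large
`n` (`q ≥ n ^ (1 / 5) / 2`); `R - xf ≤ R η`, `η = exp (-(log n) ^ 2 / 3000)`,
`η (m + 2) 2 n ≤ 6 n exp (-(log n) ^ 2 / 12000) ≤ 1`. -/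
theorem par_y : ∃ N0 : ℕ, ∀ n : ℕ, N0 ≤ n → ∃ (q s : ℕ) (xe xf : ℝ), 1 ≤ q ∧
    Tch ((q : ℝ) + 1 / q) xe ∧ xe * xf = s ∧ xe ^ 2 ≤ s ∧ xf ^ 2 ≤ n ∧
    ∀ m : ℕ, (m : ℝ) ≤ Real.exp (Real.log n ^ 2 / 4000) →
      Fc (√n) ((n : ℝ) ^ (-(1 / 25) : ℝ)) m q xe xf := by
  obtain ⟨N1, h1⟩ := tuned
  refine ⟨max N1 ⌈Real.exp 24000⌉₊, fun n hn => ?_⟩
  have hn1 : N1 ≤ n := (le_max_left _ _).trans hn
  have hn2 : Real.exp 24000 ≤ n := by
    have h2 : ⌈Real.exp 24000⌉₊ ≤ n := (le_max_right _ _).trans hn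
    exact (Nat.le_ceil _).trans (by exact_mod_cast h2)
  have hn0 : (0 : ℝ) < n := (Real.exp_pos _).trans_le hn2
  have hL1 : 24000 ≤ Real.log n := by
    rw [Real.le_log_iff_exp_le hn0]
    exact hn2
  obtain ⟨t, ht⟩ : ∃ t : ℝ, t = Real.exp (Real.log n / 100) := ⟨_, rfl⟩
  have ht1 : 28800 ≤ t := by
    have h2 := Real.quadratic_le_exp_of_nonneg (x := 240) (by norm_num)
    have h3 : Real.exp 240 ≤ t := by
      rw [ht]
      exact Real.exp_le_exp.mpr (by linarith)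
    norm_num at h2
    linarith
  have ht0 : 0 < t := by linarith
  have en : (n : ℝ) = t ^ 100 := by
    rw [ht, ← Real.exp_nat_mul]
    have h2 : ((100 : ℕ) : ℝ) * (Real.log n / 100) = Real.log n := by
      push_cast
      ring
    rw [h2, Real.exp_log hn0]
  have e5 : (n : ℝ) ^ (1 / 5 : ℝ) = t ^ 20 := by
    rw [Real.rpow_def_of_pos hn0, ht, ← Real.exp_nat_mul]
    congr 1
    push_cast
    ring
  have e25 : (n : ℝ) ^ (-(1 / 25) : ℝ) = 1 / t ^ 4 := by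
    rw [Real.rpow_def_of_pos hn0, ht, ← Real.exp_nat_mul, eq_div_iff (Real.exp_pos _).ne',
      ← Real.exp_add, Real.exp_eq_one_iff]
    push_cast
    ring
  have eR : √(n : ℝ) = t ^ 50 := by
    rw [en, show t ^ 100 = (t ^ 50) ^ 2 by ring, Real.sqrt_sq (by positivity)]
  have ht4 : (1 : ℝ) ≤ t ^ 4 := one_le_pow₀ (by linarith)
  have ht15 : (1 : ℝ) ≤ t ^ 15 := one_le_pow₀ (by linarith)
  have htt : ∀ k : ℕ, t ≤ t ^ (k + 1) := fun k => by
    rw [pow_succ]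
    exact le_mul_of_one_le_left ht0.le (one_le_pow₀ (by linarith))
  have ht20 : t ≤ t ^ 20 := htt 19
  obtain ⟨q, hq⟩ : ∃ q : ℕ, q = ⌊(n : ℝ) ^ (1 / 5 : ℝ)⌋₊ := ⟨_, rfl⟩
  have hq1 : (q : ℝ) ≤ t ^ 20 := by
    rw [hq, e5]
    exact Nat.floor_le (by positivity)
  have hq2 : t ^ 20 < (q : ℝ) + 1 := by
    rw [hq, e5]
    exact Nat.lt_floor_add_one _
  have hq3 : t ^ 20 / 2 ≤ (q : ℝ) := by linarith
  have hq0 : (0 : ℝ) < q := by
    have : (0 : ℝ) < t ^ 20 := by positivity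
    linarith
  have hq1' : (1 : ℝ) ≤ q := by linarith
  obtain ⟨sf, xe, xf, c1, c2, c3, c4, c5⟩ := h1 n q hn1 (by rw [e5]; exact hq3)
    (by rw [e5]; exact hq1)
  have hx0 : (0 : ℝ) < (q : ℝ) + 1 / q := by positivity
  have hxe : (q : ℝ) + 1 / q ≤ xe := c1.le hx0
  have hxe0 : 0 < xe := hx0.trans_le hxe
  -- the chain stays near `q`
  have hr : (q : ℝ) ^ (-(1 / 4) : ℝ) ≤ 2 / t ^ 5 := by
    have h2 : (t ^ 5 / 2) ^ 4 ≤ (q : ℝ) := by
      have h3 : (t ^ 5 / 2) ^ 4 = t ^ 20 / 16 := by ring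
      rw [h3]
      have : (0 : ℝ) < t ^ 20 := by positivity
      linarith
    have h3 : (0 : ℝ) < (t ^ 5 / 2) ^ 4 := by positivity
    have h4 := Real.rpow_le_rpow_of_nonpos h3 h2 (by norm_num : (-(1 / 4) : ℝ) ≤ 0)
    refine h4.trans (le_of_eq ?_)
    rw [← Real.rpow_natCast, ← Real.rpow_mul (by positivity)]
    have h5 : ((4 : ℕ) : ℝ) * (-(1 / 4)) = -1 := by
      push_cast
      norm_num
    rw [h5, Real.rpow_neg_one, inv_div]
  have h1q : 1 / (q : ℝ) ≤ 2 / t ^ 5 := by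
    rw [div_le_div_iff₀ hq0 (by positivity)]
    have h2 : t ^ 20 = t ^ 5 * t ^ 15 := by ring
    have h3 : t ^ 5 * 1 ≤ t ^ 5 * t ^ 15 := mul_le_mul_of_nonneg_left ht15 (by positivity)
    linarith
  have hxe1 : xe ≤ (q : ℝ) + 1 / t ^ 4 / 1000 := by
    have h2 : 6 / t ^ 5 ≤ 1 / t ^ 4 / 1000 := by
      rw [div_div, div_le_div_iff₀ (by positivity) (by positivity)]
      have h3 : t ^ 5 = t ^ 4 * t := by ring
      have h4 : t ^ 4 * 6000 ≤ t ^ 4 * t := mul_le_mul_of_nonneg_left (by linarith) (by positivity)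
      linarith
    have h3 : 6 / t ^ 5 = 2 / t ^ 5 + 2 * (2 / t ^ 5) := by ring
    linarith
  -- the last step
  obtain ⟨η, hη⟩ : ∃ η : ℝ, η = Real.exp (-(Real.log n) ^ 2 / 3000) := ⟨_, rfl⟩
  rw [← hη] at c5
  have hη0 : 0 < η := by
    rw [hη]
    exact Real.exp_pos _
  have hR : (0 : ℝ) < √(n : ℝ) := Real.sqrt_pos.mpr hn0
  have hRR : √(n : ℝ) * √(n : ℝ) = n := Real.mul_self_sqrt hn0.le
  have hxf0' : 0 ≤ xf := by
    have h2 : 0 ≤ xe * xf := by
      rw [c3]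
      exact Nat.cast_nonneg _
    exact nonneg_of_mul_nonneg_right h2 hxe0
  have hxf1 : xf ≤ √(n : ℝ) := Real.le_sqrt_of_sq_le c4
  -- the difference
  have hd : (√(n : ℝ) - xf) * √(n : ℝ) ≤ n * η := by
    have h2 : (√(n : ℝ) - xf) * √(n : ℝ) ≤ (√(n : ℝ) - xf) * (√(n : ℝ) + xf) :=
      mul_le_mul_of_nonneg_left (by linarith) (by linarith)
    have h3 : (√(n : ℝ) - xf) * (√(n : ℝ) + xf) = n - xf ^ 2 := by
      calc (√(n : ℝ) - xf) * (√(n : ℝ) + xf) = √(n : ℝ) * √(n : ℝ) - xf ^ 2 := by ring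
        _ = n - xf ^ 2 := by rw [hRR]
    linarith
  have hm : ∀ m : ℕ, (m : ℝ) ≤ Real.exp (Real.log n ^ 2 / 4000) →
      (√(n : ℝ) - xf) * ((m : ℝ) + 2) ≤ 1 / (2 * √(n : ℝ)) := by
    intro m hm
    rw [le_div_iff₀ (by positivity)]
    have h2 : (1 : ℝ) ≤ Real.exp (Real.log n ^ 2 / 4000) :=
      Real.one_le_exp (by positivity)
    have h3 : (m : ℝ) + 2 ≤ 3 * Real.exp (Real.log n ^ 2 / 4000) := by linarith
    have h4 : 0 ≤ (√(n : ℝ) - xf) * √(n : ℝ) := mul_nonneg (by linarith) hR.le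
    have h6 : Real.exp (Real.log n) = n := Real.exp_log hn0
    have h7 : (6 : ℝ) ≤ Real.exp (Real.log n) := by
      have := Real.add_one_le_exp (Real.log n)
      linarith
    have h5 : (n : ℝ) * η * (6 * Real.exp (Real.log n ^ 2 / 4000)) ≤ 1 := by
      calc (n : ℝ) * η * (6 * Real.exp (Real.log n ^ 2 / 4000))
          ≤ Real.exp (Real.log n) * η * (Real.exp (Real.log n) *
              Real.exp (Real.log n ^ 2 / 4000)) := by
            rw [h6]
            refine mul_le_mul_of_nonneg_left ?_ (by positivity)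
            refine mul_le_mul_of_nonneg_right ?_ (Real.exp_pos _).le
            rw [← h6]
            exact h7
        _ = Real.exp (Real.log n + -(Real.log n) ^ 2 / 3000 +
              (Real.log n + Real.log n ^ 2 / 4000)) := by
            rw [hη, Real.exp_add, Real.exp_add (Real.log n) (-(Real.log n) ^ 2 / 3000),
              Real.exp_add (Real.log n) (Real.log n ^ 2 / 4000)]
        _ ≤ 1 := by
            rw [Real.exp_le_one_iff]
            have h8 : 24000 * Real.log n ≤ Real.log n * Real.log n :=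
              mul_le_mul_of_nonneg_right hL1 (by linarith)
            have h9 : Real.log n + -(Real.log n) ^ 2 / 3000 +
                (Real.log n + Real.log n ^ 2 / 4000) =
                (24000 * Real.log n - Real.log n * Real.log n) / 12000 := by ring
            rw [h9]
            exact div_nonpos_of_nonpos_of_nonneg (by linarith) (by norm_num)
    calc (√(n : ℝ) - xf) * ((m : ℝ) + 2) * (2 * √(n : ℝ))
        = (√(n : ℝ) - xf) * √(n : ℝ) * (2 * ((m : ℝ) + 2)) := by ring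
      _ ≤ (√(n : ℝ) - xf) * √(n : ℝ) * (6 * Real.exp (Real.log n ^ 2 / 4000)) :=
          mul_le_mul_of_nonneg_left (by linarith) h4
      _ ≤ (n : ℝ) * η * (6 * Real.exp (Real.log n ^ 2 / 4000)) :=
          mul_le_mul_of_nonneg_right hd (by positivity)
      _ ≤ 1 := h5
  have ht50 : 1000000 ≤ t ^ 50 := by
    have h2 : t ^ 50 = t * t * t ^ 48 := by ring
    have h3 : (1 : ℝ) ≤ t ^ 48 := one_le_pow₀ (by linarith)
    have h4 : 28800 * 28800 ≤ t * t := mul_le_mul ht1 ht1 (by norm_num) ht0.le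
    have h5 : t * t * 1 ≤ t * t * t ^ 48 := mul_le_mul_of_nonneg_left h3 (by positivity)
    rw [h2]
    linarith
  have hq22 : (q : ℝ) ^ 2 ≤ 1 / t ^ 4 / 1000 * t ^ 50 := by
    have h2 : 1 / t ^ 4 / 1000 * t ^ 50 = t ^ 40 * t ^ 6 / 1000 := by
      field_simp
    rw [h2]
    have h3 : (q : ℝ) ^ 2 ≤ (t ^ 20) ^ 2 := pow_le_pow_left₀ hq0.le hq1 2
    have h4 : (t ^ 20) ^ 2 = t ^ 40 := by ring
    have h5 : t ^ 40 * 1000 ≤ t ^ 40 * t ^ 6 :=
      mul_le_mul_of_nonneg_left ((by linarith : (1000 : ℝ) ≤ t).trans (htt 5)) (by positivity)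
    linarith
  have hq33 : 1 ≤ 1 / t ^ 4 / 1000 * (q : ℝ) := by
    have h2 : 1 / t ^ 4 / 1000 * (q : ℝ) = q / (t ^ 4 * 1000) := by
      field_simp
    rw [h2, le_div_iff₀ (by positivity)]
    have h3 : t ^ 20 = t ^ 4 * t ^ 16 := by ring
    have h4 : t ^ 4 * 2000 ≤ t ^ 4 * t ^ 16 :=
      mul_le_mul_of_nonneg_left ((by linarith : (2000 : ℝ) ≤ t).trans (htt 15)) (by positivity)
    linarith
  have he1 : 1 / t ^ 4 ≤ 1 / 2 := by
    rw [div_le_div_iff₀ (by positivity) (by norm_num)]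
    have h4 : t ≤ t ^ 4 := htt 3
    linarith
  -- `xf` is close to `√n`
  have hxfR : √(n : ℝ) - 1 ≤ xf := by
    have h2 := hm 0 (by
      rw [Nat.cast_zero]
      exact (Real.exp_pos _).le)
    rw [Nat.cast_zero, zero_add, eR] at h2
    rw [eR]
    have h3 : 1 / (2 * t ^ 50) ≤ 1 := by
      rw [div_le_one (by positivity)]
      linarith
    linarith
  have hqR : xe ≤ √(n : ℝ) - 1 := by
    rw [eR]
    have h2 : (q : ℝ) ≤ (q : ℝ) ^ 2 := by
      rw [pow_two]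
      exact le_mul_of_one_le_left hq0.le hq1'
    have h3 : 1 / t ^ 4 / 1000 * t ^ 50 ≤ 1 / 2 / 1000 * t ^ 50 :=
      mul_le_mul_of_nonneg_right (div_le_div_of_nonneg_right he1 (by norm_num)) (by positivity)
    linarith
  have hxexf : xe ≤ xf := hqR.trans hxfR
  have hxf0 : 0 < xf := hxe0.trans_le hxexf
  refine ⟨q, sf, xe, xf, by exact_mod_cast hq1', c1, c3, ?_, c4, fun m hmm => ?_⟩
  · rw [← c3, pow_two]
    exact mul_le_mul_of_nonneg_left hxexf hxe0.le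
  · refine ⟨?_, ?_, ?_, Nat.cast_nonneg _, hq1', ?_, ?_, hxe, ?_, hxf0, hxf1, hm m hmm⟩
    · rw [e25]
      positivity
    · rw [e25]
      exact he1
    · rw [eR]
      exact ht50
    · rw [e25, eR]
      exact hq22
    · rw [e25]
      exact hq33
    · rw [e25]
      exact hxe1

end Pool.Agent.Lib.MP_6b2d39_agHy
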