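import Pool.Agent.Lib.MP_6b2d39_agHy.MainNeg
import Pool.Agent.Lib.MP_6b2d39_agHy.MainPos
import Pool.Agent.Lib.MP_6b2d39_agHy.ParY
import Pool.Agent.Lib.MP_6b2d39_agHy.MaxDeg
import Pool.Agent.Lib.MP_6b2d39_agHl.ToGen

set_option autoImplicit false

namespace Pool.Agent.Lib.MP_6b2d39_agHy

open Pool.Agent.Lib.MP_6b2d39_agHl Pool.Agent.Lib.MP_6b2d39_ag Pool.Agent.Lib.MP_6b2d39_agCr
  Pool.Agent.Lib.MP_6b2d39_agNw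

/-- HY27. (`par_y`, `main_pos`; `max_deg`, `main_neg`, `emp_tri_mono`) -/
theorem large_y : ∃ N0 : ℕ, ∀ n : ℕ, N0 ≤ n → ∀ (d m : ℕ) (μ : Fin n → ℕ),
    (∀ i, μ i = m ∨ μ i = m + 1) → 100 ≤ m → (m : ℝ) ≤ Real.exp (Real.log n ^ 2 / 4000) →
    (n : ℝ) ^ (-(1 / 25) : ℝ) * d ≤ |((vd d μ : ℤ) : ℝ)| →
    EmpQ (dgm (tri (d + 1)) (d + 1))
      (Sum.elim μ (fun _ => 1) : Fin n ⊕ Fin (vd d μ).toNat → ℕ) Finset.univ := by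
  obtain ⟨N1, h1⟩ := par_y
  refine ⟨N1, fun n hn d m μ hμ hm hm' hv => ?_⟩
  obtain ⟨q, s, xe, xf, hq, hc, hs, hle, hf, hF⟩ := h1 n hn
  have hFm := hF m hm'
  rcases le_total ((vd d μ : ℤ) : ℝ) 0 with h0 | h0
  · rw [abs_of_nonpos h0] at hv
    have hv0 : ((vd d μ : ℤ) : ℝ) ≤ -((n : ℝ) ^ (-(1 / 25) : ℝ) * d) := by
      rw [le_neg]
      exact hv
    obtain ⟨d', hd, hv1, hv2⟩ := max_deg μ hFm.e0.le hv0
    exact emp_tri_mono (Nat.succ_le_succ hd) (main_neg hμ hm hFm hq hc hs hle hf hv1 hv2)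
  · rw [abs_of_nonneg h0] at hv
    exact main_pos hμ hm hFm hq hc hs hle hf hv

end Pool.Agent.Lib.MP_6b2d39_agHy
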