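import Pool.Agent.Lib.MP_6b2d39_agHy.MaxDeg
import Pool.Agent.Lib.MP_6b2d39_agHl.SmallA
import Pool.Agent.Lib.MP_6b2d39_agHl.ToGen

set_option autoImplicit false

namespace Pool.Agent.Lib.MP_6b2d39_agHy

open Pool.Agent.Lib.MP_6b2d39_agHl Pool.Agent.Lib.MP_6b2d39_ag Pool.Agent.Lib.MP_6b2d39_agCr
  Pool.Agent.Lib.MP_6b2d39_agNw

private theorem smy_sum {n m : ℕ} {μ : Fin n → ℕ} (hm : 1 ≤ m)
    (hμ : ∀ i, μ i = m ∨ μ i = m + 1) : (n : ℝ) ≤ ((∑ i, (μ i + 1).choose 2 : ℕ) : ℝ) := by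
  have h : n ≤ ∑ i, (μ i + 1).choose 2 := by
    have h1 : ∑ _i : Fin n, 1 ≤ ∑ i, (μ i + 1).choose 2 := by
      refine Finset.sum_le_sum fun i _ => ?_
      have h2 : 1 + 1 ≤ μ i + 1 := by rcases hμ i with h | h <;> omega
      exact Nat.choose_le_choose 2 h2
    rw [Finset.sum_const, Finset.card_univ, Fintype.card_fin, smul_eq_mul, mul_one] at h1
    exact h1
  exact_mod_cast h

private theorem smy_cast {n k k' : ℕ} (h : k = k') {P : Finset (ℕ × ℕ)} {μ : Fin n → ℕ}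
    (hE : EmpQ P (Sum.elim μ (fun _ => 1) : Fin n ⊕ Fin k → ℕ) Finset.univ) :
    EmpQ P (Sum.elim μ (fun _ => 1) : Fin n ⊕ Fin k' → ℕ) Finset.univ := by
  subst h
  exact hE

/-- the degree is at least `√n` -/
private theorem smy_deg {n d : ℕ} (hn : 10000 ≤ n)
    (h : 2 * (n : ℝ) ≤ (d : ℝ) ^ 2 + 7 * d + 8) : √(n : ℝ) ≤ d := by
  by_contra hcon
  rw [not_le] at hcon
  have hn' : (10000 : ℝ) ≤ n := by exact_mod_cast hn
  have hss : √(n : ℝ) * √(n : ℝ) = n := Real.mul_self_sqrt (by linarith)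
  have hs : (100 : ℝ) ≤ √(n : ℝ) := Real.le_sqrt_of_sq_le (by norm_num; linarith)
  have hd : (0 : ℝ) ≤ d := Nat.cast_nonneg d
  nlinarith

/-- the window is large -/
private theorem smy_win {n d : ℕ} (hn : 1 ≤ n) (h : (60000 : ℝ) ≤ (n : ℝ) ^ (23 / 50 : ℝ))
    (hd : √(n : ℝ) ≤ d) : (60000 : ℝ) ≤ (n : ℝ) ^ (-(1 / 25) : ℝ) * d := by
  have hn0 : (0 : ℝ) < n := by exact_mod_cast hn
  have h1 : (n : ℝ) ^ (-(1 / 25) : ℝ) * √(n : ℝ) = (n : ℝ) ^ (23 / 50 : ℝ) := by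
    rw [Real.sqrt_eq_rpow, ← Real.rpow_add hn0]
    norm_num
  have h2 : (n : ℝ) ^ (-(1 / 25) : ℝ) * √(n : ℝ) ≤ (n : ℝ) ^ (-(1 / 25) : ℝ) * d :=
    mul_le_mul_of_nonneg_left hd (Real.rpow_nonneg hn0.le _)
  linarith

/-- HY26. `m < 100`. `m = 0`: `emp_one`. `m ≥ 1`: `emp_window` with `κ = m + 1`: if `vd d μ ≥ 0`,
then `(d + 1) (d + 2) ≥ n m (m + 1) ≥ 2 n`, `d ≥ √n` and `ε d ≥ n ^ (23 / 50) ≥ 6 (m + 1) ^ 2`.
If `vd d μ ≤ -ε d`, take `d' ≥ d` from `max_deg`: `vd (d' + 1) μ ≥ -(d' + 1)`, so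
`(d' + 2) (d' + 3) / 2 + d' + 1 ≥ n`, `d' ≥ √n` and `ε d' ≥ 3 (m + 1) ^ 2`; `emp_window` in degree
`d'` and `emp_tri_mono` (`(vd d μ).toNat = (vd d' μ).toNat = 0`). -/
theorem small_y : ∃ N0 : ℕ, ∀ n : ℕ, N0 ≤ n → ∀ (d m : ℕ) (μ : Fin n → ℕ),
    (∀ i, μ i = m ∨ μ i = m + 1) → m < 100 →
    (n : ℝ) ^ (-(1 / 25) : ℝ) * d ≤ |((vd d μ : ℤ) : ℝ)| →
    EmpQ (dgm (tri (d + 1)) (d + 1))
      (Sum.elim μ (fun _ => 1) : Fin n ⊕ Fin (vd d μ).toNat → ℕ) Finset.univ := by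
  obtain ⟨N1, hN1⟩ : ∃ N1 : ℕ, ∀ n : ℕ, N1 ≤ n → (60000 : ℝ) ≤ (n : ℝ) ^ (23 / 50 : ℝ) := by
    have h := ((tendsto_rpow_atTop (by norm_num : (0 : ℝ) < 23 / 50)).comp
      (tendsto_natCast_atTop_atTop (R := ℝ))).eventually_ge_atTop 60000
    exact Filter.eventually_atTop.1 h
  refine ⟨max N1 10000, fun n hn d m μ hμ hm hv => ?_⟩
  have hn1 := hN1 n (le_trans (le_max_left _ _) hn)
  have hn2 : 10000 ≤ n := le_trans (le_max_right _ _) hn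
  have hn3 : 1 ≤ n := by omega
  rcases Nat.eq_zero_or_pos m with hm0 | hm1
  · subst hm0
    exact emp_one fun i => by rcases hμ i with h | h <;> omega
  have hn' : (10000 : ℝ) ≤ n := by exact_mod_cast hn2
  have hs : (100 : ℝ) ≤ √(n : ℝ) := Real.le_sqrt_of_sq_le (by norm_num; linarith)
  have hμκ : ∀ i, μ i ≤ m + 1 := fun i => by rcases hμ i with h | h <;> omega
  have hS := smy_sum hm1 hμ
  have hk : ((m : ℤ) + 1) ^ 2 ≤ 10000 := by
    have h1 : (m : ℤ) + 1 ≤ 100 := by omega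
    have h2 : (0 : ℤ) ≤ (m : ℤ) + 1 := by omega
    have h3 := pow_le_pow_left₀ h2 h1 2
    norm_num at h3
    exact h3
  rcases le_or_gt 0 (vd d μ) with hpos | hneg
  · have hp : (0 : ℝ) ≤ ((vd d μ : ℤ) : ℝ) := by exact_mod_cast hpos
    rw [abs_of_nonneg hp] at hv
    have hd : √(n : ℝ) ≤ d := by
      refine smy_deg hn2 ?_
      rw [vd_real] at hp
      have h0 : (0 : ℝ) ≤ d := Nat.cast_nonneg d
      nlinarith
    have h1 := smy_win hn3 hn1 hd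
    have h2 : (60000 : ℤ) ≤ vd d μ := by
      have h3 : ((60000 : ℤ) : ℝ) ≤ ((vd d μ : ℤ) : ℝ) := by
        push_cast
        linarith
      exact_mod_cast h3
    have hmd : m + 1 ≤ d + 1 := by
      have h3 : ((100 : ℕ) : ℝ) ≤ (d : ℝ) := by
        push_cast
        linarith
      have h4 : 100 ≤ d := by exact_mod_cast h3
      omega
    refine emp_window (κ := m + 1) (by omega) hmd hμκ (Or.inr ?_)
    push_cast
    linarith
  · have hp : ((vd d μ : ℤ) : ℝ) < 0 := by exact_mod_cast hneg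
    rw [abs_of_neg hp] at hv
    have hε0 : 0 ≤ (n : ℝ) ^ (-(1 / 25) : ℝ) := Real.rpow_nonneg (by linarith) _
    have hε1 : (n : ℝ) ^ (-(1 / 25) : ℝ) ≤ 1 :=
      Real.rpow_le_one_of_one_le_of_nonpos (by linarith) (by norm_num)
    obtain ⟨d', hdd, h1, h2⟩ := max_deg μ hε0 (by linarith :
      ((vd d μ : ℤ) : ℝ) ≤ -((n : ℝ) ^ (-(1 / 25) : ℝ) * d))
    have h0 : (0 : ℝ) ≤ d' := Nat.cast_nonneg d'
    have hd : √(n : ℝ) ≤ d' := by
      refine smy_deg hn2 ?_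
      rw [vd_real] at h2
      have h3 : (n : ℝ) ^ (-(1 / 25) : ℝ) * ((d' : ℝ) + 1) ≤ (d' : ℝ) + 1 :=
        mul_le_of_le_one_left (by linarith) hε1
      push_cast at h2 hS
      nlinarith
    have h3 := smy_win hn3 hn1 hd
    have h4 : vd d' μ ≤ -60000 := by
      have h5 : ((vd d' μ : ℤ) : ℝ) ≤ ((-60000 : ℤ) : ℝ) := by
        push_cast
        linarith
      exact_mod_cast h5
    have hmd : m + 1 ≤ d' + 1 := by
      have h5 : ((100 : ℕ) : ℝ) ≤ (d' : ℝ) := by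
        push_cast
        linarith
      have h6 : 100 ≤ d' := by exact_mod_cast h5
      omega
    have hE := emp_window (κ := m + 1) (d := d') (by omega) hmd hμκ (Or.inl (by
      push_cast
      linarith))
    refine smy_cast ?_ (emp_tri_mono (by omega : d + 1 ≤ d' + 1) hE)
    omega

end Pool.Agent.Lib.MP_6b2d39_agHy
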