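import Pool.Agent.Lib.MP_6b2d39_agHy.LargeY
import Pool.Agent.Lib.MP_6b2d39_agHy.SmallY
import Pool.Agent.Lib.MP_6b2d39_agHx.Main

set_option autoImplicit false

namespace Pool.Agent.Lib.MP_6b2d39_agHy

open Pool.Agent.Lib.MP_6b2d39_agHl Pool.Agent.Lib.MP_6b2d39_ag Pool.Agent.Lib.MP_6b2d39_agCr
  Pool.Agent.Lib.MP_6b2d39_agNw Pool.Agent.Lib.MP_6b2d39_agHx

/-- THEOREM HY. -/
theorem all_but_one : ∃ N0 : ℕ, ∀ n m : ℕ, N0 ≤ n →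
    (m : ℝ) ≤ Real.exp (Real.log n ^ 2 / 4000) → ∀ μ : Fin n → ℕ,
    (∀ i, μ i = m ∨ μ i = m + 1) → ∃ d0 : ℕ, ∀ d : ℕ,
      d ≠ d0 ∨ (n : ℝ) ^ (-(1 / 25) : ℝ) * d ≤ |((vd d μ : ℤ) : ℝ)| →
      General (fun P => (Module.finrank ℂ (curves d μ P) : ℤ) = max (vd d μ) 0) := by
  obtain ⟨N1, h1⟩ := large_y
  obtain ⟨N2, h2⟩ := small_y
  obtain ⟨N3, h3⟩ := par_y
  refine ⟨max N1 (max N2 N3), fun n m hn hm μ hμ => ?_⟩
  obtain ⟨d0, hd0⟩ := unique_degree μ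
  refine ⟨d0, fun d hd => general_of_emp ?_⟩
  have hn1 : N1 ≤ n := (le_max_left _ _).trans hn
  have hn2 : N2 ≤ n := ((le_max_left _ _).trans (le_max_right _ _)).trans hn
  have hn3 : N3 ≤ n := ((le_max_right _ _).trans (le_max_right _ _)).trans hn
  have hε : (n : ℝ) ^ (-(1 / 25) : ℝ) ≤ 1 / 2 := by
    obtain ⟨q, s, xe, xf, _, _, _, _, _, hF⟩ := h3 n hn3
    exact (hF m hm).e1
  have hv : (n : ℝ) ^ (-(1 / 25) : ℝ) * d ≤ |((vd d μ : ℤ) : ℝ)| := by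
    rcases hd with hd | hd
    · exact (mul_le_mul_of_nonneg_right hε (Nat.cast_nonneg d)).trans (hd0 d hd)
    · exact hd
  rcases lt_or_ge m 100 with hm1 | hm1
  · exact h2 n hn2 d m μ hμ hm1 hv
  · exact h1 n hn1 d m μ hμ hm1 hm hv

end Pool.Agent.Lib.MP_6b2d39_agHy
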