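import Pool.Agent.Lib.MP_6b2d39_agHy.FinRows
import Pool.Agent.Lib.MP_6b2d39_agHy.NumA
import Pool.Agent.Lib.MP_6b2d39_agHy.NumC
import Pool.Agent.Lib.MP_6b2d39_agHy.Dem
import Pool.Agent.Lib.MP_6b2d39_agHy.EndNeg

set_option autoImplicit false

namespace Pool.Agent.Lib.MP_6b2d39_agHy

open Pool.Agent.Lib.MP_6b2d39_agHl Pool.Agent.Lib.MP_6b2d39_agHx Pool.Agent.Lib.MP_6b2d39_ag
  Pool.Agent.Lib.MP_6b2d39_agCr Pool.Agent.Lib.MP_6b2d39_agNw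

/-- `(n - xf ^ 2) m ≤ 1` -/
private theorem mneg_loss {R ε m q xe xf : ℝ} (h : Fc R ε m q xe xf) :
    (R ^ 2 - xf ^ 2) * m ≤ 1 := by
  have hR : 0 < R := by linarith [h.r0]
  have h1 := h.xf2
  have h2 : 0 ≤ R - xf := by linarith [h.xf1]
  have h3 : 0 ≤ (R - xf) * m := mul_nonneg h2 h.m0
  have h4 : (R - xf) * m ≤ 1 / (2 * R) := by nlinarith
  have h5 : (R ^ 2 - xf ^ 2) * m = (R + xf) * ((R - xf) * m) := by ring
  have h6 : (R + xf) * ((R - xf) * m) ≤ (2 * R) * ((R - xf) * m) :=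
    mul_le_mul_of_nonneg_right (by linarith [h.xf1]) h3
  have h7 : (2 * R) * ((R - xf) * m) ≤ 2 * R * (1 / (2 * R)) :=
    mul_le_mul_of_nonneg_left h4 (by linarith)
  have h8 : 2 * R * (1 / (2 * R)) = 1 := by field_simp
  linarith

/-- the last step uses at most `n / 4` special points -/
private theorem mneg_count {R ε m q xe xf d rT v T : ℝ} (h : Fc R ε m q xe xf) (hm : 100 ≤ m)
    (hd : d ≤ R * (m + 2)) (hT : m ≤ T) (hr : rT ≤ xf ^ 2 + q ^ 2 / 2 + 1)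
    (hv : -(2 * d + 3) ≤ v) : 4 * (rT - v) ≤ R ^ 2 * T := by
  have h1 := h.q2
  have h2 := h.r0
  have h3 := h.e0
  have h4 := h.e1
  have h5 : xf ^ 2 ≤ R ^ 2 := pow_le_pow_left₀ h.xf0.le h.xf1 2
  have h6 : ε / 1000 * R ≤ R := by nlinarith
  have h7 : R ^ 2 * m ≤ R ^ 2 * T := mul_le_mul_of_nonneg_left hT (by positivity)
  have h8 : 4 * (R ^ 2 + R / 2 + 1 + 2 * (R * (m + 2)) + 3) ≤ R ^ 2 * m := by
    have hRm : 0 ≤ R * m := mul_nonneg (by linarith) (by linarith)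
    have h9 : 1000000 * (R * m) ≤ R ^ 2 * m := by
      have h12 : R * (R * m) = R ^ 2 * m := by ring
      rw [← h12]
      exact mul_le_mul_of_nonneg_right h2 hRm
    have h10 : 100 * R ^ 2 ≤ R ^ 2 * m := by nlinarith [sq_nonneg R]
    have h11 : 100 * R ≤ R * m := by nlinarith
    nlinarith
  linarith

/-- HY24. (`ms_of`, `d_near`, `size`, `fin_rows`, `top_real`, `card_top`, `dem_bounds`, `vd_rows`,
`width`, `end_neg` with `G = S - UU - 1`, `σ = UU - WW + 1`;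
`- v ≤ 2 d + 3`, `4 (n + R + 1 + 2 d + 3) ≤ n m`; `Red.emp`) -/
theorem main_neg {n q s d m u : ℕ} {ε xe xf : ℝ} {μ : Fin n → ℕ}
    (hμ : ∀ i, μ i = m ∨ μ i = m + 1) (hm : 100 ≤ m) (hF : Fc (√n) ε m q xe xf)
    (hq : 1 ≤ q) (hc : Tch ((q : ℝ) + 1 / q) xe) (hs : xe * xf = s) (hle : xe ^ 2 ≤ s)
    (hf : xf ^ 2 ≤ n) (hv : ((vd d μ : ℤ) : ℝ) ≤ -(ε * d))
    (hv' : -(ε * ((d : ℝ) + 1)) < ((vd (d + 1) μ : ℤ) : ℝ)) :
    EmpQ (dgm (tri (d + 1)) (d + 1)) (Sum.elim μ (fun _ => 1) : Fin n ⊕ Fin u → ℕ)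
      Finset.univ := by
  obtain ⟨R, hR⟩ : ∃ R : ℝ, R = √(n : ℝ) := ⟨_, rfl⟩
  rw [← hR] at hF
  have hR0 := hF.r0
  have hRn : R ^ 2 = (n : ℝ) := by
    rw [hR]
    exact Real.sq_sqrt (Nat.cast_nonneg n)
  have hn : 1 ≤ n := by
    rcases Nat.eq_zero_or_pos n with h | h
    · rw [h] at hR
      simp only [Nat.cast_zero, Real.sqrt_zero] at hR
      linarith
    · exact h
  obtain ⟨S, hS⟩ : ∃ S : ℝ, S = ((∑ i, μ i : ℕ) : ℝ) := ⟨_, rfl⟩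
  have hM := ms_of hn hμ
  rw [← hR, ← hS] at hM
  have hd0 : (0 : ℝ) ≤ d := Nat.cast_nonneg d
  have hm' : (100 : ℝ) ≤ m := by exact_mod_cast hm
  have hε := hF.e0
  have hε1 := hF.e1
  have hεd : 0 ≤ ε * d := mul_nonneg hε.le hd0
  -- the degree
  have e1 := vd_real (d := d) μ
  have e2 := vd_real (d := d + 1) μ
  push_cast at e1 e2
  have hn1 : ((d : ℝ) + 1) * (d + 2) / 2 - ((∑ i, (μ i + 1).choose 2 : ℕ) : ℝ) ≤ 0 := by
    push_cast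
    linarith
  have hε3 : ε * ((d : ℝ) + 1) ≤ d + 1 := by nlinarith
  have hn2 : -((d : ℝ) + 1) ≤
      ((d : ℝ) + 2) * (d + 3) / 2 - ((∑ i, (μ i + 1).choose 2 : ℕ) : ℝ) := by
    push_cast
    have h1 : ((d : ℝ) + 1 + 1) * (d + 1 + 2) / 2 = ((d : ℝ) + 2) * (d + 3) / 2 := by ring
    linarith
  have hD := d_near hR0 hm' hM hd0 hn1 hn2
  obtain ⟨z1, z2⟩ := size hR0 hF.m0 hM.s0 hM.s1 hD
  -- the rows
  have hqR : (q : ℝ) ≤ R := by
    have h1 := hF.q1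
    have h2 := hF.q2
    have h3 : ε / 1000 * R ≤ R := by nlinarith
    nlinarith
  have hqd : q ≤ d := by
    have h1 : (q : ℝ) ≤ d := by nlinarith
    exact_mod_cast h1
  obtain ⟨r, T, hred, r0, rU, rW, rT, t1, t2⟩ := fin_rows hq hc hs hle hqd
  have hS0 : 0 ≤ S := by
    rw [hS]
    exact Nat.cast_nonneg _
  obtain ⟨T1, T2⟩ := top_real hF hS0 hM.s1 hD t1 t2
  rw [hRn, hS] at T1 T2
  obtain ⟨hTm, hcard⟩ := card_top hn hμ T1 T2
  have hloss : ((n : ℝ) - xf ^ 2) * m ≤ 1 := by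
    rw [← hRn]
    exact mneg_loss hF
  obtain ⟨b1, b2, b3⟩ := dem_bounds hμ hf hloss hTm rU rW
  have hmT : (m : ℝ) ≤ T := by
    rcases hTm with h | h
    · rw [h]
    · rw [h]
      push_cast
      linarith
  have hTm' : (T : ℝ) ≤ m + 1 := by
    rcases hTm with h | h
    · rw [h]
      linarith
    · rw [h]
      push_cast
      exact le_rfl
  have hmd : m + 1 ≤ d := by
    have h1 : ((m : ℝ) + 1) ≤ d := by nlinarith
    exact_mod_cast h1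
  have hvr := vd_rows hμ hTm hmd hred r0
  obtain ⟨w1, w2⟩ := width hF ((d : ℝ) + 3 / 2)
  obtain ⟨G, hG⟩ : ∃ G : ℝ, G = S - UU ((d : ℝ) + 3 / 2) q xe xf - 1 := ⟨_, rfl⟩
  obtain ⟨σ, hσ⟩ : ∃ σ : ℝ, σ = UU ((d : ℝ) + 3 / 2) q xe xf - WW ((d : ℝ) + 3 / 2) q xe xf + 1 :=
    ⟨_, rfl⟩
  have hGσ : G + σ = S - WW ((d : ℝ) + 3 / 2) q xe xf := by
    rw [hG, hσ]
    ring
  rw [← hS] at b1 b2 b3
  rw [← hG] at b1
  rw [← hGσ] at b2 b3
  rw [← hσ] at w1 w2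
  refine hred.emp (end_neg (v := ((vd d μ : ℤ) : ℝ)) (G := G) (σ := σ) ?_ r0 hvr hcard b1 b2 b3
    w1 ?_ ?_)
  · have h1 : (1 : ℝ) ≤ T := by linarith
    exact_mod_cast h1
  · -- `(T + 1) σ ≤ ε d`
    have h1 : ((T : ℝ) + 1) * σ ≤ ((m : ℝ) + 2) * (ε / 50 * R) :=
      mul_le_mul (by linarith) w2 w1 (by linarith)
    have h2 : ((m : ℝ) + 2) * (ε / 50 * R) ≤ ε * (R * m) := by
      have h3 : ((m : ℝ) + 2) * (ε / 50 * R) = ε * (R * (((m : ℝ) + 2) / 50)) := by ring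
      rw [h3]
      refine mul_le_mul_of_nonneg_left (mul_le_mul_of_nonneg_left ?_ (by linarith)) hε.le
      linarith
    have h3 : ε * (R * m) ≤ ε * d := mul_le_mul_of_nonneg_left (by linarith) hε.le
    linarith
  · rw [← hRn]
    refine mneg_count hF hm' z2 hmT rT ?_
    rw [e1]
    have h1 : ((d : ℝ) + 1 + 1) * (d + 1 + 2) / 2 = ((d : ℝ) + 1) * (d + 2) / 2 + (d + 2) := by ring
    linarith

end Pool.Agent.Lib.MP_6b2d39_agHy
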