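import Pool.Agent.Lib.MP_6b2d39_agHy.TwoRows

set_option autoImplicit false

namespace Pool.Agent.Lib.MP_6b2d39_agHy

open Pool.Agent.Lib.MP_6b2d39_agHl Pool.Agent.Lib.MP_6b2d39_agHx

/-- HY11. (`two_rows`, `top_rows`; `Tch.le`) -/
theorem pre_rows {q : ℕ} {xe : ℝ} (hq : 1 ≤ q) (hc : Tch ((q : ℝ) + 1 / q) xe) (N : ℕ) :
    ∃ r, Red N (tri N) r ∧ (∀ b, N ≤ b → r b = 0) ∧
      (∀ b, 1 ≤ b → (r b : ℝ) ≤
        max (xe * (up N q + (xe - ((q : ℝ) + 1 / q))) - xe ^ 2 * b) 0) ∧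
      (r 0 : ℝ) ≤ xe * max (up N q + (xe - ((q : ℝ) + 1 / q))) 0 + (q : ℝ) ^ 2 / 2 ∧
      ∀ b, xe * (lo N q - (xe - ((q : ℝ) + 1 / q))) - xe ^ 2 * b ≤ (r b : ℝ) := by
  have hq0 : (1 : ℝ) ≤ q := by exact_mod_cast hq
  have hy : (0 : ℝ) < (q : ℝ) + 1 / q := by positivity
  have hye := hc.le hy
  obtain ⟨r1, hr1, hz1, hu1, h01, hl1⟩ := two_rows hq N
  obtain ⟨r, hr, hz, hu, h0, hl⟩ := top_rows hy hc hz1 hu1 h01 hl1
  have e1 : ((q : ℝ) + 1 / q) * up N q / ((q : ℝ) + 1 / q) = up N q := by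
    field_simp
  have e2 : ((q : ℝ) + 1 / q) * lo N q / ((q : ℝ) + 1 / q) = lo N q := by
    field_simp
  rw [e1] at hu h0
  rw [e2] at hl
  refine ⟨r, hr1.trans hr, hz, hu, h0.trans (max_le ?_ ?_), hl⟩
  · have h1 : max (up N q) 0 ≤ max (up N q + (xe - ((q : ℝ) + 1 / q))) 0 :=
      max_le_max (by linarith) le_rfl
    have h2 : (0 : ℝ) ≤ max (up N q) 0 := le_max_right _ _
    have h3 : ((q : ℝ) + 1 / q) * max (up N q) 0 ≤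
        xe * max (up N q + (xe - ((q : ℝ) + 1 / q))) 0 :=
      mul_le_mul hye h1 h2 (hy.le.trans hye)
    linarith
  · have h1 : (0 : ℝ) ≤ (q : ℝ) ^ 2 / 2 := by positivity
    linarith

end Pool.Agent.Lib.MP_6b2d39_agHy
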