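import Pool.Agent.Lib.MP_6b2d39_agHy.Defs
import Pool.Agent.Lib.MP_6b2d39_agHx.AllRows

set_option autoImplicit false

namespace Pool.Agent.Lib.MP_6b2d39_agHy

open Pool.Agent.Lib.MP_6b2d39_agHl Pool.Agent.Lib.MP_6b2d39_agHx

/-- HY10. the steps `q` (`stepA_up`, `stepA_lo` with `x = 1`, `x' = q`, `A = L = N`: rows
`≤ q (N - (q - 1) / 2) + 1 / 8 - q ^ 2 b` except one of length `≤ q ^ 2 / 2`, rows
`≥ q (N - (q - 1) / 2) - 1 / 8 - q ^ 2 b`) and `q ^ 2 + 1` (`P = q ^ 2`, `x = q`,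
`x' = q + 1 / q`: `row_up_ne` and `ff_le` for `b ≥ 1`, `row_up_ne_zero` for `b = 0`; lower bound
`row_lo`, `le_ff`, loss `1 / q`). As `three_rows` in `Hx/AllRows.lean`. -/
theorem two_rows {q : ℕ} (hq : 1 ≤ q) (N : ℕ) :
    ∃ r, Red N (tri N) r ∧ (∀ b, N ≤ b → r b = 0) ∧
      (∀ b, 1 ≤ b → (r b : ℝ) ≤
        max (((q : ℝ) + 1 / q) * up N q - ((q : ℝ) + 1 / q) ^ 2 * b) 0) ∧
      (r 0 : ℝ) ≤ ((q : ℝ) + 1 / q) * max (up N q) 0 + (q : ℝ) ^ 2 / 2 ∧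
      ∀ b, ((q : ℝ) + 1 / q) * lo N q - ((q : ℝ) + 1 / q) ^ 2 * b ≤ (r b : ℝ) := by
  have hq1 : (1 : ℝ) ≤ (q : ℝ) := by exact_mod_cast hq
  have hq0 : (0 : ℝ) < (q : ℝ) := by linarith
  have hx0 : (0 : ℝ) < (q : ℝ) + 1 / q := by positivity
  -- the first step
  obtain ⟨r1, hr1⟩ : ∃ r1, r1 = stp q N (tri N) := ⟨_, rfl⟩
  have u0 : ∀ b : ℕ, ((tri N b : ℕ) : ℝ) ≤ max ((N : ℝ) - 1 ^ 2 * b) 0 := by
    intro b
    unfold tri
    rcases le_total b N with h | h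
    · rw [Nat.cast_sub h, one_pow, one_mul]
      exact le_max_left _ _
    · rw [Nat.sub_eq_zero_of_le h, Nat.cast_zero]
      exact le_max_right _ _
  have l0 : ∀ b : ℕ, (N : ℝ) - 1 ^ 2 * b ≤ ((tri N b : ℕ) : ℝ) := by
    intro b
    unfold tri
    rw [one_pow, one_mul, sub_le_iff_le_add]
    have h1 : N ≤ (N - b) + b := by omega
    exact_mod_cast h1
  have z0 : ∀ b, N ≤ b → tri N b = 0 := fun b hb => Nat.sub_eq_zero_of_le hb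
  have hle1 : (1 : ℝ) ^ 2 ≤ (q : ℝ) := by
    rw [one_pow]
    exact hq1
  obtain ⟨R1, u1, v1⟩ := stepA_up (n := N) one_pos (one_mul (q : ℝ)) hle1 u0
  have l1 := stepA_lo (n := N) one_pos (one_mul (q : ℝ)) hle1 z0 l0
  rw [← hr1] at u1 v1 l1
  have z1 : ∀ b, N ≤ b → r1 b = 0 := fun b hb => by
    rw [hr1]
    exact stp_zero hb
  -- the second step
  have hs : (q : ℝ) * ((q : ℝ) + 1 / q) = ((q ^ 2 + 1 : ℕ) : ℝ) := by
    push_cast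
    field_simp
  have hle2 : (q : ℝ) ^ 2 ≤ ((q ^ 2 + 1 : ℕ) : ℝ) := by
    push_cast
    linarith
  have hR : r1 R1 ≤ q ^ 2 + 1 := by
    have h1 : (r1 R1 : ℝ) ≤ ((q ^ 2 + 1 : ℕ) : ℝ) := by
      have h2 : (0 : ℝ) ≤ (q : ℝ) ^ 2 := sq_nonneg _
      push_cast
      linarith
    exact_mod_cast h1
  obtain ⟨u2, v2⟩ := stepB_up (n := N) hq0 hs hle2 hR u1
  have l2 := step_lo (n := N) hq0 hs hle2 z1 l1
  have gA : ((q : ℝ) + 1 / q) / q * ((q : ℝ) / 1 * (N - (q - 1 ^ 2) / 2) + 1 ^ 2 / 8) =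
      ((q : ℝ) + 1 / q) * up N q := by
    unfold up
    field_simp
  have gL : ((q : ℝ) + 1 / q) / q * ((q : ℝ) / 1 * (N - (q - 1 ^ 2) / 2) - 1 ^ 2 / 8 -
      (((q ^ 2 + 1 : ℕ) : ℝ) - (q : ℝ) ^ 2)) = ((q : ℝ) + 1 / q) * lo N q := by
    unfold lo
    push_cast
    field_simp
    ring
  refine ⟨stp (q ^ 2 + 1) N r1, ?_, fun b hb => stp_zero hb, fun b hb => ?_, ?_, fun b => ?_⟩
  · exact (Relation.ReflTransGen.single ⟨q, hq, hr1⟩).tail ⟨q ^ 2 + 1, by omega, rfl⟩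
  · have h1 := u2 b hb
    rwa [gA] at h1
  · rw [gA] at v2
    have h1 : max (((q : ℝ) + 1 / q) * up N q) 0 = ((q : ℝ) + 1 / q) * max (up N q) 0 := by
      rw [mul_max_of_nonneg _ _ hx0.le, mul_zero]
    rw [h1] at v2
    linarith
  · have h1 := l2 b
    rwa [gL] at h1

end Pool.Agent.Lib.MP_6b2d39_agHy
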